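import Pool.Agent.Q105.PH.Reg

set_option autoImplicit false

/-! # Isometries close to the identity are rigid inside the polygon -/

namespace Q105.PH

open Set

theorem ip_add_self (P Q : ℂ) : ip (P + Q) (P + Q) = ip P P + 2 * ip P Q + ip Q Q := by
  unfold ip; simp only [Complex.add_re, Complex.add_im]; ring

theorem ip_sub_self (P Q : ℂ) : ip (P - Q) (P - Q) = ip P P - 2 * ip P Q + ip Q Q := by
  unfold ip; simp only [Complex.sub_re, Complex.sub_im]; ring

theorem col {P Q : ℂ} {α β : ℝ} (hP : ‖P‖ = α) (hQ : ‖Q‖ = β) (h : ‖P + Q‖ = α + β) :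
    (β : ℂ) * P = (α : ℂ) * Q := by
  have e1 := ip_self P
  have e2 := ip_self Q
  have e3 := ip_self (P + Q)
  rw [ip_add_self, h, e1, e2, hP, hQ] at e3
  have e4 : ip P Q = α * β := by linarith
  have e5 := ip_self ((β : ℂ) * P - (α : ℂ) * Q)
  have e6 : ip ((β : ℂ) * P - (α : ℂ) * Q) ((β : ℂ) * P - (α : ℂ) * Q) =
      β ^ 2 * ip P P - 2 * α * β * ip P Q + α ^ 2 * ip Q Q := by
    unfold ip
    simp only [Complex.sub_re, Complex.sub_im, Complex.re_ofReal_mul, Complex.im_ofReal_mul]; ring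
  rw [e6, e1, e2, e4, hP, hQ] at e5
  have e7 : ‖(β : ℂ) * P - (α : ℂ) * Q‖ ^ 2 = 0 := by rw [← e5]; ring
  exact sub_eq_zero.mp (norm_eq_zero.mp (pow_eq_zero_iff two_ne_zero |>.mp e7))

theorem chain_norm (N : ℕ) (z : ℕ → ℂ) (p : ℂ) {r δ : ℝ} (hr : 0 < r) (hδ : 0 < δ)
    (h0 : ‖z 0 - p‖ = r) (h1 : 0 < N → ‖z 1 - p‖ = r + δ) (hs : ∀ k < N, ‖z (k + 1) - z k‖ = δ)
    (hs2 : ∀ k, k + 1 < N → ‖z (k + 2) - z k‖ = 2 * δ) : ‖z N - p‖ = r + N * δ := by
  have hrc : (r : ℂ) ≠ 0 := by exact_mod_cast hr.ne'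
  have hδc : (δ : ℂ) ≠ 0 := by exact_mod_cast hδ.ne'
  have inc : ∀ k < N, z (k + 1) - z k = ((δ / r : ℝ) : ℂ) * (z 0 - p) := by
    intro k
    induction k with
    | zero =>
      intro hN
      have := col (P := z 0 - p) (Q := z 1 - z 0) h0 (hs 0 hN) (by rw [sub_add_sub_cancel', h1 hN])
      rw [zero_add]
      push_cast
      field_simp
      linear_combination -this
    | succ k ih =>
      intro hN
      have h2 := ih (by omega)
      have h3 := col (P := z (k + 1) - z k) (Q := z (k + 2) - z (k + 1)) (hs k (by omega))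
        (hs (k + 1) hN) (by rw [sub_add_sub_cancel', hs2 k hN]; ring)
      have h4 := mul_left_cancel₀ hδc h3
      rw [show k + 1 + 1 = k + 2 by ring, ← h4, h2]
  have tot : ∀ k ≤ N, z k - p = ((1 + k * (δ / r) : ℝ) : ℂ) * (z 0 - p) := by
    intro k
    induction k with
    | zero => intro _; push_cast; ring
    | succ k ih =>
      intro hk
      have h2 := ih (by omega)
      have h3 := inc k (by omega)
      rw [show z (k + 1) - p = (z (k + 1) - z k) + (z k - p) by ring, h3, h2]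
      push_cast; ring
  rw [tot N le_rfl, norm_mul, h0, Complex.norm_real, Real.norm_eq_abs, abs_of_pos (by positivity)]
  field_simp

theorem gram {q0 q1 q2 h0 h1 h2 B B' v v' : ℂ} (hcr : cr (q1 - q0) (q2 - q0) ≠ 0)
    (e01 : dist h0 h1 = dist q0 q1) (e02 : dist h0 h2 = dist q0 q2) (e12 : dist h1 h2 = dist q1 q2)
    (b0 : dist B' h0 = dist B q0) (b1 : dist B' h1 = dist B q1) (b2 : dist B' h2 = dist B q2)
    (c0 : dist v' h0 = dist v q0) (c1 : dist v' h1 = dist v q1) (c2 : dist v' h2 = dist v q2) :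
    dist B' v' = dist B v := by
  have sq : ∀ {a b c d : ℂ}, dist a b = dist c d → ip (a - b) (a - b) = ip (c - d) (c - d) := by
    intro a b c d h
    rw [ip_self, ip_self, ← dist_eq_norm, ← dist_eq_norm, h]
  have s01 := sq e01
  have s02 := sq e02
  have s12 := sq e12
  have t0 := sq b0
  have t1 := sq b1
  have t2 := sq b2
  have u0 := sq c0
  have u1 := sq c1
  have u2 := sq c2
  have iEM : ip (h1 - h0) (h1 - h0) = ip (q1 - q0) (q1 - q0) := by
    unfold ip at *; simp only [Complex.sub_re, Complex.sub_im] at *; linarith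
  have iFF : ip (h2 - h0) (h2 - h0) = ip (q2 - q0) (q2 - q0) := by
    unfold ip at *; simp only [Complex.sub_re, Complex.sub_im] at *; linarith
  have iMM : ip (h1 - h0) (h2 - h0) = ip (q1 - q0) (q2 - q0) := by
    unfold ip at *; simp only [Complex.sub_re, Complex.sub_im] at *; linarith
  have ia1 : ip (B' - h0) (h1 - h0) = ip (B - q0) (q1 - q0) := by
    unfold ip at *; simp only [Complex.sub_re, Complex.sub_im] at *; linarith
  have ia2 : ip (B' - h0) (h2 - h0) = ip (B - q0) (q2 - q0) := by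
    unfold ip at *; simp only [Complex.sub_re, Complex.sub_im] at *; linarith
  have ic1 : ip (v' - h0) (h1 - h0) = ip (v - q0) (q1 - q0) := by
    unfold ip at *; simp only [Complex.sub_re, Complex.sub_im] at *; linarith
  have ic2 : ip (v' - h0) (h2 - h0) = ip (v - q0) (q2 - q0) := by
    unfold ip at *; simp only [Complex.sub_re, Complex.sub_im] at *; linarith
  have id2 : ∀ a c E F : ℂ, ip a c * (ip E E * ip F F - ip E F ^ 2) =
      ip F F * ip a E * ip c E - ip E F * (ip a E * ip c F + ip a F * ip c E) +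
        ip E E * ip a F * ip c F := by
    intro a c E F; unfold ip; ring
  have hD : ∀ E F : ℂ, ip E E * ip F F - ip E F ^ 2 = cr E F ^ 2 := by
    intro E F; unfold ip cr; ring
  have k1 := id2 (B - q0) (v - q0) (q1 - q0) (q2 - q0)
  have k2 := id2 (B' - h0) (v' - h0) (h1 - h0) (h2 - h0)
  rw [iEM, iFF, iMM, ia1, ia2, ic1, ic2, ← k1] at k2
  have hne : ip (q1 - q0) (q1 - q0) * ip (q2 - q0) (q2 - q0) - ip (q1 - q0) (q2 - q0) ^ 2 ≠ 0 := by
    rw [hD]; exact pow_ne_zero 2 hcr
  have k3 := mul_right_cancel₀ hne k2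
  have k4 : ip (B' - v') (B' - v') = ip (B - v) (B - v) := by
    have e1 := ip_sub_self (B' - h0) (v' - h0)
    have e2 := ip_sub_self (B - q0) (v - q0)
    rw [sub_sub_sub_cancel_right] at e1 e2
    rw [e1, e2, k3, t0, u0]
  rw [ip_self, ip_self, ← dist_eq_norm, ← dist_eq_norm] at k4
  exact (pow_left_inj₀ dist_nonneg dist_nonneg two_ne_zero).mp k4

namespace ConvexPolygon

variable {G : ConvexPolygon}

/-- `φ` is an isometry from the surface at `x` to the surface at `y` which moves points by less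
than `ε` -/
structure Near (G : ConvexPolygon) (x y ε : ℝ) (φ : ℂ → ℂ) : Prop where
  mem : ∀ a ∈ G.carrier, φ a ∈ G.carrier
  iso : ∀ a ∈ G.carrier, ∀ b ∈ G.carrier, G.gdist y (φ a) (φ b) = G.gdist x a b
  close : ∀ a ∈ G.carrier, G.gdist y (φ a) a < ε

theorem zero_transport {y : ℝ} {a a' c c' : ℂ} (ha : a ∈ G.carrier) (ha' : a' ∈ G.carrier)
    (hc : c ∈ G.carrier) (hc' : c' ∈ G.carrier) (h1 : G.gdist y a a' = 0) (h2 : G.gdist y c c' = 0) :
    G.gdist y a c = G.gdist y a' c' := by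
  apply le_antisymm
  · have e1 := gdist_triangle (x := y) ha ha' hc
    have e2 := gdist_triangle (x := y) ha' hc' hc
    rw [gdist_comm G y c' c, h2] at e2
    linarith
  · have e1 := gdist_triangle (x := y) ha' ha hc'
    have e2 := gdist_triangle (x := y) ha hc hc'
    rw [gdist_comm G y a' a, h1] at e1
    linarith

variable {x y ε : ℝ} {φ : ℂ → ℂ}

theorem Near.dist_lt (h : Near G x y ε φ) {a : ℂ} (ha : a ∈ G.carrier) {η : ℝ} (hη : ε ≤ η)
    (hε : 0 < ε) (hd : ∀ w, η ≤ dist a (G.b w)) : dist a (φ a) < ε := by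
  have h1 := lb_int (x := y) ha hd (by linarith) (h.mem a ha)
  have h2 := h.close a ha
  rw [gdist_comm] at h2
  rcases min_lt_iff.mp (lt_of_le_of_lt h1 h2) with h3 | h3
  · linarith
  · exact h3

theorem Near.deep (h : Near G x y ε φ) {a : ℂ} (ha : a ∈ G.carrier) {η : ℝ} (hη : ε ≤ η)
    (hε : 0 < ε) (hd : ∀ w, η ≤ dist a (G.b w)) : ∀ w, η - ε ≤ dist (φ a) (G.b w) := by
  intro w
  have h1 := h.dist_lt ha hη hε hd
  have h2 := dist_triangle a (φ a) (G.b w)
  linarith [hd w]

theorem Near.step (h : Near G x y ε φ) {a c : ℂ} (ha : a ∈ G.carrier) (hc : c ∈ G.carrier) {η : ℝ}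
    (hη : 4 * ε ≤ η) (hε : 0 < ε) (hd : ∀ w, η ≤ dist a (G.b w)) (hac : dist a c ≤ η / 2) :
    dist (φ a) (φ c) = dist a c := by
  have e1 := lb_int (x := x) ha hd (by linarith) hc
  rw [min_eq_right (by linarith)] at e1
  have e2 : G.gdist x a c = dist a c := le_antisymm (gdist_le_dist ha hc) e1
  have e3 := h.iso a ha c hc
  have e4 := h.deep ha (by linarith) hε hd
  have e5 := lb_int (x := y) (h.mem a ha) e4 (by linarith) (h.mem c hc)
  rw [e3, e2] at e5
  have e6 := gdist_le_dist (x := y) (h.mem a ha) (h.mem c hc)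
  rw [e3, e2] at e6
  apply le_antisymm _ e6
  rcases min_le_iff.mp e5 with h1 | h1
  · linarith
  · exact h1

theorem chain (h : Near G x y ε φ) {p p' q : ℂ} {r R η : ℝ} (hp : p ∈ G.carrier)
    (hp' : p' ∈ G.carrier) (hq : q ∈ G.carrier)
    (hloc : ∀ z ∈ G.carrier, dist p z ≤ R → G.gdist x p z = dist p z)
    (hloc' : ∀ z ∈ G.carrier, dist p' z ≤ R → G.gdist y p' z = dist p' z)
    (hpp : G.gdist y (φ p) p' = 0) (hd : dist p p' < ε) (hε : 0 < ε) (hr : 0 < r) (hrR : 4 * r ≤ R)
    (hεr : ε ≤ r) (hεη : 4 * ε ≤ η) (hrpq : r < dist p q)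
    (hdeep : ∀ t : ℝ, r / dist p q ≤ t → t ≤ 1 → ∀ w, η ≤ dist (p + (t : ℂ) * (q - p)) (G.b w)) :
    dist p' (φ q) = dist p q := by
  set l := dist p q with hl
  have hl0 : 0 < l := hr.trans hrpq
  have hη : 0 < η := by linarith
  have hlr : 0 < l - r := by linarith
  -- number of steps
  obtain ⟨N, hN⟩ := exists_nat_gt ((l - r) / min (η / 4) r)
  have hmin : 0 < min (η / 4) r := lt_min (by linarith) hr
  have hN0 : 0 < (N : ℝ) := lt_trans (div_pos hlr hmin) hN
  have hNn : 0 < N := by exact_mod_cast hN0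
  set δ := (l - r) / N with hδ
  have hδ0 : 0 < δ := div_pos hlr hN0
  have hδm : δ ≤ min (η / 4) r := by
    rw [hδ, div_le_iff₀ hN0]
    rw [div_lt_iff₀ hmin] at hN
    linarith
  have hδη : δ ≤ η / 4 := hδm.trans (min_le_left _ _)
  have hδr : δ ≤ r := hδm.trans (min_le_right _ _)
  have hNδ : (N : ℝ) * δ = l - r := by rw [hδ]; field_simp
  -- the points
  set Y : ℕ → ℂ := fun k => p + (((r + k * δ) / l : ℝ) : ℂ) * (q - p) with hY
  have hbd : ∀ k ≤ N, r / l ≤ (r + k * δ) / l ∧ (r + k * δ) / l ≤ 1 := by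
    intro k hk
    have hk' : (k : ℝ) ≤ N := by exact_mod_cast hk
    constructor
    · apply div_le_div_of_nonneg_right _ hl0.le
      have : (0 : ℝ) ≤ k * δ := by positivity
      linarith
    · rw [div_le_one hl0]
      have : (k : ℝ) * δ ≤ N * δ := mul_le_mul_of_nonneg_right hk' hδ0.le
      linarith
  have hYm : ∀ k ≤ N, Y k ∈ G.carrier := by
    intro k hk
    have h1 := hbd k hk
    have h2 := G.convex.add_smul_sub_mem hp hq (t := (r + k * δ) / l)
      ⟨le_trans (by positivity) h1.1, h1.2⟩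
    simpa [hY, Complex.real_smul] using h2
  have hYd : ∀ k ≤ N, ∀ w, η ≤ dist (Y k) (G.b w) := fun k hk =>
    hdeep _ (hbd k hk).1 (hbd k hk).2
  have hnpq : ‖q - p‖ = l := by rw [hl, dist_comm, dist_eq_norm]
  have hYY : ∀ j k, dist (Y j) (Y k) = |(j : ℝ) - k| * δ := by
    intro j k
    rw [dist_eq_norm]
    have : Y j - Y k = ((((j : ℝ) - k) * δ / l : ℝ) : ℂ) * (q - p) := by
      simp only [hY]; push_cast; ring
    rw [this, norm_mul, hnpq, Complex.norm_real, Real.norm_eq_abs, abs_div, abs_mul, abs_of_pos hl0,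
      abs_of_pos hδ0]
    field_simp
  have hpY : ∀ k : ℕ, dist p (Y k) = r + k * δ := by
    intro k
    rw [dist_comm, dist_eq_norm]
    have : Y k - p = (((r + k * δ) / l : ℝ) : ℂ) * (q - p) := by simp only [hY]; ring
    rw [this, norm_mul, hnpq, Complex.norm_real, Real.norm_eq_abs, abs_of_nonneg (by positivity)]
    field_simp
  have hYN : Y N = q := by
    simp only [hY]
    rw [hNδ, show (r + (l - r)) / l = 1 by field_simp; ring]
    push_cast; ring
  -- the first two points
  have hstart : ∀ k ≤ N, r + k * δ ≤ 2 * r → dist p' (φ (Y k)) = r + k * δ := by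
    intro k hk hk2
    have e1 := hloc (Y k) (hYm k hk) (by rw [hpY]; linarith)
    have e2 := h.iso p hp (Y k) (hYm k hk)
    have e3 := zero_transport (y := y) (h.mem p hp) hp' (h.mem _ (hYm k hk)) (h.mem _ (hYm k hk)) hpp
      (gdist_self G y _)
    have e4 := h.dist_lt (hYm k hk) (by linarith) hε (hYd k hk)
    have e5 : dist p' (φ (Y k)) ≤ R := by
      have f1 := dist_triangle p' p (φ (Y k))
      have f2 := dist_triangle p (Y k) (φ (Y k))
      rw [hpY] at f2
      rw [dist_comm p' p] at f1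
      linarith
    rw [← hloc' _ (h.mem _ (hYm k hk)) e5, ← e3, e2, e1, hpY]
  have hch := chain_norm N (fun k => φ (Y k)) p' hr hδ0
    (by rw [← dist_eq_norm, dist_comm, hstart 0 (by omega) (by push_cast; linarith)]; push_cast; ring)
    (fun _ => by rw [← dist_eq_norm, dist_comm, hstart 1 (by omega) (by push_cast; linarith)]; push_cast; ring)
    (fun k hk => by
      rw [← dist_eq_norm, dist_comm, h.step (hYm k (by omega)) (hYm (k + 1) (by omega)) hεη hε
        (hYd k (by omega)) (by rw [hYY]; push_cast; simp; linarith), hYY]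
      push_cast; simp)
    (fun k hk => by
      rw [← dist_eq_norm, dist_comm, h.step (hYm k (by omega)) (hYm (k + 2) (by omega)) hεη hε
        (hYd k (by omega)) (by rw [hYY]; push_cast; simp; linarith), hYY]
      push_cast; simp)
  simp only [hYN] at hch
  rw [dist_comm, dist_eq_norm, hch, hNδ]; ring

end ConvexPolygon

end Q105.PH
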