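import Mathlib

set_option autoImplicit false

/-!
# Perimeter-halving gluings of convex polygons: definitions (MP_d67387_co)

The plane is `ℂ` with its Euclidean distance, the space is `EuclideanSpace ℝ (Fin 3)`.
-/

namespace Q105.PH

open Set

/-- A convex polygon (the convex hull of a finite set of points of the plane, with nonempty
interior) together with the parametrisation `b` of its boundary by arc length: `L` is the perimeter,
`s 0 = 0 < s 1 < ... < s n = L` are the positions of the vertices, and `b` runs with unit speed in
the direction `e i` along the edge from the vertex `b (s i)` to the vertex `b (s (i + 1))`. -/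
structure ConvexPolygon where
  carrier : Set ℂ
  hull : ∃ F : Finset ℂ, carrier = convexHull ℝ (F : Set ℂ)
  nonflat : (interior carrier).Nonempty
  L : ℝ
  n : ℕ
  s : ℕ → ℝ
  e : ℕ → ℂ
  b : ℝ → ℂ
  n_pos : 0 < n
  s_zero : s 0 = 0
  s_last : s n = L
  s_lt : ∀ i < n, s i < s (i + 1)
  e_norm : ∀ i < n, ‖e i‖ = 1
  b_eq : ∀ i < n, ∀ t ∈ Icc (s i) (s (i + 1)), b t = b (s i) + ((t - s i : ℝ) : ℂ) * e i
  turn : ∀ i, i + 1 < n → e i ≠ e (i + 1)
  turn_last : e (n - 1) ≠ e 0
  periodic : Function.Periodic b L
  injOn : InjOn b (Ico 0 L)
  range_b : range b = frontier carrier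

namespace ConvexPolygon

variable (G : ConvexPolygon)

/-- The perimeter-halving gluing at the boundary point `b x` identifies the two boundary points at
arc length `d` from `b x`, for all `0 < d < L / 2`. -/
def Glued (x : ℝ) (p q : ℂ) : Prop :=
  ∃ d : ℝ, 0 < d ∧ d < G.L / 2 ∧
    ((p = G.b (x + d) ∧ q = G.b (x - d)) ∨ (p = G.b (x - d) ∧ q = G.b (x + d)))

/-- `Route x p q l`: one can go from `p` to `q` by finitely many segments in the polygon of total
length `l` and jumps between points which are glued together. -/
inductive Route (x : ℝ) : ℂ → ℂ → ℝ → Prop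
  | refl (p : ℂ) : Route x p p 0
  | walk (p q r : ℂ) (l : ℝ) : p ∈ G.carrier → q ∈ G.carrier → Route x q r l →
      Route x p r (dist p q + l)
  | jump (p q r : ℂ) (l : ℝ) : G.Glued x p q → Route x q r l → Route x p r l

/-- The distance of two points on the glued surface: the infimum of the lengths of all routes. -/
noncomputable def gdist (x : ℝ) (p q : ℂ) : ℝ := sInf {l : ℝ | G.Route x p q l}

end ConvexPolygon

end Q105.PH
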