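import Pool.Agent.Q105.PH.Defs

set_option autoImplicit false

/-! # The gluing distance: elementary properties -/

namespace Q105.PH

open Set

namespace ConvexPolygon

variable {G : ConvexPolygon} {x : ℝ} {p q r : ℂ}

theorem L_pos (G : ConvexPolygon) : 0 < G.L := by
  have h : ∀ k, k ≤ G.n → k ≠ 0 → 0 < G.s k := by
    intro k
    induction k with
    | zero => intro _ h; exact absurd rfl h
    | succ k ih =>
      intro hk _
      have h1 := G.s_lt k (by omega)
      rcases Nat.eq_zero_or_pos k with h0 | h0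
      · subst h0; rw [G.s_zero] at h1; exact h1
      · exact lt_trans (ih (by omega) (by omega)) h1
  have := h G.n le_rfl (by have := G.n_pos; omega)
  rwa [G.s_last] at this

theorem convex (G : ConvexPolygon) : Convex ℝ G.carrier := by
  obtain ⟨F, hF⟩ := G.hull
  rw [hF]; exact convex_convexHull ℝ _

theorem compact (G : ConvexPolygon) : IsCompact G.carrier := by
  obtain ⟨F, hF⟩ := G.hull
  rw [hF]; exact F.finite_toSet.isCompact_convexHull ℝ

theorem closed (G : ConvexPolygon) : IsClosed G.carrier := G.compact.isClosed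

theorem b_mem (G : ConvexPolygon) (t : ℝ) : G.b t ∈ G.carrier :=
  G.closed.frontier_subset (G.range_b ▸ mem_range_self t)

theorem b_frontier (G : ConvexPolygon) (t : ℝ) : G.b t ∈ frontier G.carrier :=
  G.range_b ▸ mem_range_self t

/-! routes -/

theorem Glued.symm (h : G.Glued x p q) : G.Glued x q p := by
  obtain ⟨d, h0, h1, h2⟩ := h
  exact ⟨d, h0, h1, h2.symm.imp (fun h => ⟨h.2, h.1⟩) (fun h => ⟨h.2, h.1⟩)⟩

theorem Glued.mem (h : G.Glued x p q) : p ∈ G.carrier := by
  obtain ⟨d, h0, h1, ⟨h2, _⟩ | ⟨h2, _⟩⟩ := h <;> rw [h2] <;> exact G.b_mem _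

theorem Route.nonneg {l : ℝ} (h : G.Route x p q l) : 0 ≤ l := by
  induction h with
  | refl => exact le_rfl
  | walk p q r l _ _ _ ih => exact add_nonneg dist_nonneg ih
  | jump p q r l _ _ ih => exact ih

theorem Route.trans {l m : ℝ} (h : G.Route x p q l) (h' : G.Route x q r m) :
    G.Route x p r (l + m) := by
  induction h with
  | refl => simpa using h'
  | walk p q' r' l hp hq _ ih =>
    have := Route.walk p q' r _ hp hq (ih h')
    rwa [← add_assoc] at this
  | jump p q' r' l hg _ ih => exact Route.jump p q' r _ hg (ih h')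

theorem Route.symm {l : ℝ} (h : G.Route x p q l) : G.Route x q p l := by
  induction h with
  | refl => exact Route.refl _
  | walk p q' r' l hp hq _ ih =>
    have h1 := Route.walk (G := G) (x := x) q' p p 0 hq hp (Route.refl p)
    have h2 := ih.trans h1
    rw [add_zero, dist_comm, add_comm] at h2
    exact h2
  | jump p q' r' l hg _ ih =>
    have h1 := Route.jump (G := G) (x := x) q' p p 0 hg.symm (Route.refl p)
    have h2 := ih.trans h1
    rwa [add_zero] at h2

theorem bddBelow (G : ConvexPolygon) (x : ℝ) (p q : ℂ) : BddBelow {l : ℝ | G.Route x p q l} :=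
  ⟨0, fun _ h => Route.nonneg h⟩

theorem gdist_nonneg (G : ConvexPolygon) (x : ℝ) (p q : ℂ) : 0 ≤ G.gdist x p q :=
  Real.sInf_nonneg fun _ h => Route.nonneg h

theorem gdist_comm (G : ConvexPolygon) (x : ℝ) (p q : ℂ) : G.gdist x p q = G.gdist x q p := by
  unfold gdist
  congr 1
  ext l
  exact ⟨Route.symm, Route.symm⟩

theorem gdist_self (G : ConvexPolygon) (x : ℝ) (p : ℂ) : G.gdist x p p = 0 :=
  le_antisymm (csInf_le (bddBelow G x p p) (Route.refl p)) (gdist_nonneg G x p p)

theorem route_of_mem (hp : p ∈ G.carrier) (hq : q ∈ G.carrier) : G.Route x p q (dist p q) := by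
  have := Route.walk (G := G) (x := x) p q q 0 hp hq (Route.refl q)
  rwa [add_zero] at this

theorem gdist_le_dist (hp : p ∈ G.carrier) (hq : q ∈ G.carrier) : G.gdist x p q ≤ dist p q :=
  csInf_le (bddBelow G x p q) (route_of_mem hp hq)

theorem gdist_triangle (hp : p ∈ G.carrier) (hq : q ∈ G.carrier) (hr : r ∈ G.carrier) :
    G.gdist x p r ≤ G.gdist x p q + G.gdist x q r := by
  refine le_of_forall_pos_le_add fun ε hε => ?_
  obtain ⟨l, hl, hl'⟩ := exists_lt_of_csInf_lt ⟨_, route_of_mem hp hq⟩
    (lt_add_of_pos_right (G.gdist x p q) (half_pos hε))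
  obtain ⟨m, hm, hm'⟩ := exists_lt_of_csInf_lt ⟨_, route_of_mem hq hr⟩
    (lt_add_of_pos_right (G.gdist x q r) (half_pos hε))
  have h := csInf_le (bddBelow G x p r) (Route.trans hl hm)
  have h2 : G.gdist x p r ≤ l + m := h
  linarith

theorem gdist_glued (h : G.Glued x p q) : G.gdist x p q = 0 :=
  le_antisymm (csInf_le (bddBelow G x p q) (Route.jump p q q 0 h (Route.refl q)))
    (gdist_nonneg G x p q)

/-- The points `b (x + d)` and `b (x - d)` are equal or glued, for all real `d`. -/
theorem b_add_sub (G : ConvexPolygon) (x d : ℝ) :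
    G.b (x + d) = G.b (x - d) ∨ G.Glued x (G.b (x + d)) (G.b (x - d)) := by
  have hL := G.L_pos
  -- reduce `d` modulo `L` to `[0, L)`
  obtain ⟨k, hk, -⟩ := existsUnique_add_zsmul_mem_Ico hL d 0
  simp only [zero_add, mem_Ico, zsmul_eq_mul] at hk
  set c := d + (k : ℝ) * G.L with hc
  have h1 : G.b (x + d) = G.b (x + c) := by
    have := G.periodic.int_mul k (x + d)
    rw [← this]; congr 1; rw [hc]; ring
  have h2 : G.b (x - d) = G.b (x - c) := by
    have := G.periodic.int_mul (-k) (x - d)
    rw [← this]; congr 1; rw [hc]; push_cast; ring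
  rw [h1, h2]
  rcases lt_trichotomy c (G.L / 2) with h | h | h
  · rcases eq_or_lt_of_le hk.1 with h0 | h0
    · left; rw [← h0]; simp
    · right; exact ⟨c, h0, h, Or.inl ⟨rfl, rfl⟩⟩
  · left
    have := G.periodic (x - c)
    rw [← this]; congr 1; rw [h]; ring
  · right
    have h3 : G.b (x + c) = G.b (x - (G.L - c)) := by
      have := G.periodic (x - (G.L - c))
      rw [← this]; congr 1; ring
    have h4 : G.b (x - c) = G.b (x + (G.L - c)) := by
      have := G.periodic (x - c)
      rw [← this]; congr 1; ring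
    exact ⟨G.L - c, by linarith [hk.2], by linarith, Or.inr ⟨h3, h4⟩⟩

theorem gdist_b (G : ConvexPolygon) (x u : ℝ) : G.gdist x (G.b u) (G.b (2 * x - u)) = 0 := by
  have h := b_add_sub G x (u - x)
  rw [show x + (u - x) = u by ring, show x - (u - x) = 2 * x - u by ring] at h
  rcases h with h | h
  · rw [← h]; exact gdist_self G x _
  · exact gdist_glued h

/-- Lower bounds of the gluing distance by functions compatible with the gluing. -/
theorem lower_bound (f : ℂ → ℝ) (hf : ∀ p ∈ G.carrier, ∀ q ∈ G.carrier, f p ≤ f q + dist p q)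
    (hg : ∀ u, f (G.b u) = f (G.b (2 * x - u))) (hp : p ∈ G.carrier) (hq : q ∈ G.carrier) :
    f p ≤ f q + G.gdist x p q := by
  have key : ∀ l p q, G.Route x p q l → f p ≤ f q + l := by
    intro l p q h
    induction h with
    | refl => simp
    | walk p q r l hp hq _ ih =>
      have := hf p hp q hq
      linarith
    | jump p q r l hg' _ ih =>
      obtain ⟨d, _, _, ⟨h1, h2⟩ | ⟨h1, h2⟩⟩ := hg'
      · have := hg (x + d)
        rw [show 2 * x - (x + d) = x - d by ring] at this
        rw [h1, this, ← h2]; exact ih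
      · have := hg (x - d)
        rw [show 2 * x - (x - d) = x + d by ring] at this
        rw [h1, this, ← h2]; exact ih
  have h1 : f p - f q ≤ G.gdist x p q :=
    le_csInf ⟨_, route_of_mem hp hq⟩ fun l hl => by
      have := key l p q hl
      linarith
  linarith

end ConvexPolygon

end Q105.PH
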