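import Pool.Agent.Q105.PH.Chain

set_option autoImplicit false

/-! # Finitely many isometric gluings -/

namespace Q105.PH

open Set

namespace ConvexPolygon

variable {G : ConvexPolygon}

/-- an isometry from the surface at `x` onto the surface at `y`, in terms of representatives -/
structure Mp (G : ConvexPolygon) (x y : ℝ) (ψ : ℂ → ℂ) : Prop where
  mem : ∀ a ∈ G.carrier, ψ a ∈ G.carrier
  iso : ∀ a ∈ G.carrier, ∀ b ∈ G.carrier, G.gdist y (ψ a) (ψ b) = G.gdist x a b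
  surj : ∀ c ∈ G.carrier, ∃ a ∈ G.carrier, G.gdist y (ψ a) c = 0

theorem Mp.reg {x y : ℝ} {ψ : ℂ → ℂ} (h : Mp G x y ψ) {p : ℂ} (hp : p ∈ G.carrier)
    (hr : Reg G y (ψ p)) : Reg G x p := by
  obtain ⟨σ, hσ, h1⟩ := hr
  refine ⟨σ, hσ, fun s h0 hs => ?_⟩
  obtain ⟨a, ha, c, hc, h2, h3, h4⟩ := h1 s h0 hs
  obtain ⟨a', ha', h5⟩ := h.surj a ha
  obtain ⟨c', hc', h6⟩ := h.surj c hc
  refine ⟨a', ha', c', hc', ?_, ?_, ?_⟩
  · rw [← h.iso _ ha' _ hp, zero_transport (h.mem _ ha') ha (h.mem _ hp) (h.mem _ hp) h5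
      (gdist_self G y _), h2]
  · rw [← h.iso _ hc' _ hp, zero_transport (h.mem _ hc') hc (h.mem _ hp) (h.mem _ hp) h6
      (gdist_self G y _), h3]
  · rw [← h.iso _ ha' _ hc', zero_transport (h.mem _ ha') ha (h.mem _ hc') hc h5 h6, h4]

theorem Cor.mono {u c c' : ℝ} (h : Cor G u c) (hc : c' ≤ c) : Cor G u c' := by
  obtain ⟨τ, τ', h1, h2, h3, h4, h5⟩ := h
  exact ⟨τ, τ', h1, h2, h3, fun t h0 ht => h4 t h0 (ht.trans hc), fun t h0 ht => h5 t h0 (ht.trans hc)⟩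

theorem sing_corner (x : ℝ) {i : ℕ} (hi : i < G.n) : ¬ Reg G x (G.b (G.s i)) := by
  obtain ⟨c0, hc0, hcor⟩ := cor_of_corner G
  have h0 : Cor G (G.s i) c0 := by
    have := hcor i hi 0
    rwa [Int.cast_zero, zero_mul, add_zero] at this
  have hL := G.L_pos
  rcases str_or_corner (G := G) (2 * x - G.s i) with ⟨c, hc, h1⟩ | ⟨j, hj, k, hk⟩
  · refine not_reg_corner (c := min (min c0 c) (G.L / 4)) (by positivity) ?_
      (h0.mono ((min_le_left _ _).trans (min_le_left _ _)))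
      (Or.inl (h1.mono ((min_le_left _ _).trans (min_le_right _ _))))
    have := min_le_right (min c0 c) (G.L / 4)
    linarith
  · refine not_reg_corner (c := min c0 (G.L / 4)) (by positivity) ?_
      (h0.mono (min_le_left _ _)) (Or.inr ?_)
    · have := min_le_right c0 (G.L / 4)
      linarith
    · rw [hk]; exact (hcor j hj k).mono (min_le_left _ _)

theorem sing_fold {x u : ℝ} {k : ℤ} (hk : 2 * x - u = u + k * G.L) (hu : ∀ i < G.n, G.cd u (G.s i) ≠ 0) :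
    ¬ Reg G x (G.b u) := by
  rcases str_or_corner (G := G) u with ⟨c, hc, h1⟩ | ⟨i, hi, m, hm⟩
  · exact not_reg_fold hc h1 hk
  · exfalso
    apply hu i hi
    have := cd_le (G := G) u (G.s i) m
    rw [hm, show G.s i + m * G.L - G.s i - m * G.L = 0 by ring, abs_zero] at this
    rw [hm]
    exact le_antisymm this (cd_nonneg _ _)

/-- positive distance from a fold point -/
theorem fold_pos {x u : ℝ} {k : ℤ} (hk : 2 * x - u = u + k * G.L) {z : ℂ} (hz : z ∈ G.carrier)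
    (hne : z ≠ G.b u) : 0 < G.gdist x (G.b u) z := by
  obtain ⟨c, hc, hls⟩ := exists_ls (G := G) u
  have hb : ∀ t, G.b (2 * x - u + t) = G.b (u + t) := by
    intro t
    rw [hk, show u + k * G.L + t = u + t + k * G.L by ring, b_int]
  have hb0 : G.b (2 * x - u) = G.b u := by rw [hk, b_int]
  have ls2 : LS G (2 * x - u) c := fun t ht => by rw [hb, hb0]; exact hls t ht
  obtain ⟨ρ', hρ', hsep'⟩ := exists_sep G hc
  have h := lb_pair (ρ := min ρ' c) hls ls2 (fun u w h => (min_le_left _ _).trans (hsep' u w h))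
    (min_le_right _ _) (lt_min hρ' hc).le hz
  refine lt_of_lt_of_le ?_ h
  rw [hb0, min_self]
  exact lt_min (lt_min hρ' hc) (dist_pos.mpr hne)

theorem fold_sep {x u κ c0 : ℝ} {k : ℤ} (hk : 2 * x - u = u + k * G.L)
    (hu : ∀ i < G.n, G.cd u (G.s i) ≠ 0) (hc0 : ∀ i < G.n, LS G (G.s i) c0)
    (hκ : ∀ i < G.n, G.gdist x (G.b u) (G.b (G.s i)) = 0 ∨ κ ≤ G.gdist x (G.b u) (G.b (G.s i)))
    (i : ℕ) (hi : i < G.n) : min c0 κ ≤ G.cd u (G.s i) := by
  by_contra hcon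
  push Not at hcon
  have h1 : G.cd u (G.s i) < c0 := hcon.trans_le (min_le_left _ _)
  have h2 : G.cd u (G.s i) < κ := hcon.trans_le (min_le_right _ _)
  have hne : G.b (G.s i) ≠ G.b u := fun h => hu i hi (cd_of_b_eq h.symm)
  have h3 := fold_pos hk (G.b_mem (G.s i)) hne
  rcases hκ i hi with h4 | h4
  · linarith
  · obtain ⟨m, hm⟩ := cd_eq (G := G) u (G.s i)
    have h5 := hc0 i hi (u - G.s i - m * G.L) (by rw [← hm]; exact h1.le)
    rw [← hm, show G.s i + (u - G.s i - m * G.L) = u + ((-m : ℤ) : ℝ) * G.L by push_cast; ring,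
      b_int] at h5
    have h6 := gdist_le_dist (x := x) (G.b_mem u) (G.b_mem (G.s i))
    linarith

theorem partner_far {x c : ℝ} {i : ℕ} (h1 : c ≤ G.cd x (G.s i)) (h2 : c ≤ G.cd (x + G.L / 2) (G.s i))
    (hc : 0 < c) : c ≤ G.cd (2 * x - G.s i) (G.s i) := by
  obtain ⟨k, hk⟩ := cd_eq (G := G) (2 * x - G.s i) (G.s i)
  rw [hk]
  by_contra hcon
  push Not at hcon
  rcases Int.even_or_odd' k with ⟨m, rfl | rfl⟩
  · have h3 := h1.trans (cd_le x (G.s i) m)
    have h4 : |2 * x - G.s i - G.s i - ((2 * m : ℤ) : ℝ) * G.L| = 2 * |x - G.s i - m * G.L| := by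
      rw [← abs_two, ← abs_mul, abs_two]; congr 1; push_cast; ring
    linarith
  · have h3 := h2.trans (cd_le (x + G.L / 2) (G.s i) (m + 1))
    have h4 : |2 * x - G.s i - G.s i - ((2 * m + 1 : ℤ) : ℝ) * G.L| =
        2 * |x + G.L / 2 - G.s i - ((m + 1 : ℤ) : ℝ) * G.L| := by
      rw [← abs_two, ← abs_mul, abs_two]; congr 1; push_cast; ring
    linarith

theorem partner_ls {x c c0 κ : ℝ} {i : ℕ} (hi : i < G.n) (hcc : c ≤ c0) (hcκ : c ≤ κ)
    (hc : 0 < c) (hc0 : ∀ j < G.n, ∀ k : ℤ, LS G (G.s j + k * G.L) c0)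
    (hfar : c ≤ G.cd (2 * x - G.s i) (G.s i))
    (hκ : ∀ j < G.n, G.gdist x (G.b (G.s i)) (G.b (G.s j)) = 0 ∨
      κ ≤ G.gdist x (G.b (G.s i)) (G.b (G.s j))) : LS G (2 * x - G.s i) c := by
  by_cases h : ∃ j < G.n, G.cd (2 * x - G.s i) (G.s j) = 0
  · obtain ⟨j, hj, h⟩ := h
    obtain ⟨k, hk⟩ := cd_eq (G := G) (2 * x - G.s i) (G.s j)
    rw [h] at hk
    have hk' := abs_eq_zero.mp hk.symm
    rw [show 2 * x - G.s i = G.s j + k * G.L by linarith]
    exact (hc0 j hj k).mono hcc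
  · push Not at h
    refine (str_of_far fun j hj => ?_).ls
    by_contra hcon
    push Not at hcon
    have hls : LS G (G.s j) c0 := by
      have := hc0 j hj 0
      rwa [Int.cast_zero, zero_mul, add_zero] at this
    obtain ⟨m, hm⟩ := cd_eq (G := G) (2 * x - G.s i) (G.s j)
    have h5 := hls (2 * x - G.s i - G.s j - m * G.L) (by rw [← hm]; linarith)
    rw [← hm, show G.s j + (2 * x - G.s i - G.s j - m * G.L) = 2 * x - G.s i + ((-m : ℤ) : ℝ) * G.L by
      push_cast; ring, b_int] at h5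
    have h6 := gdist_le_dist (x := x) (G.b_mem (2 * x - G.s i)) (G.b_mem (G.s j))
    have h7 : G.gdist x (G.b (G.s i)) (G.b (G.s j)) = G.gdist x (G.b (2 * x - G.s i)) (G.b (G.s j)) :=
      zero_transport (G.b_mem _) (G.b_mem _) (G.b_mem _) (G.b_mem _) (gdist_b G x _) (gdist_self G x _)
    have h8 : G.gdist x (G.b (G.s i)) (G.b (G.s j)) = 0 := by
      rcases hκ j hj with h8 | h8
      · exact h8
      · linarith
    -- so `b (s j)` is one of the two points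
    obtain ⟨c1, hc1, ls1⟩ := exists_ls (G := G) (G.s i)
    obtain ⟨c2, hc2, ls2⟩ := exists_ls (G := G) (2 * x - G.s i)
    obtain ⟨ρ', hρ', hsep'⟩ := exists_sep G (lt_min hc1 hc2)
    have h9 := lb_pair (x := x) (ρ := min ρ' (min c1 c2)) (ls1.mono (min_le_left c1 c2))
      (ls2.mono (min_le_right c1 c2)) (fun u w h => (min_le_left _ _).trans (hsep' u w h))
      (min_le_right _ _) (by positivity) (G.b_mem (G.s j))
    rw [h8] at h9
    rcases min_le_iff.mp h9 with h10 | h10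
    · have : 0 < min ρ' (min c1 c2) := by positivity
      linarith
    · rcases min_le_iff.mp h10 with h11 | h11
      · have e1 : G.b (G.s j) = G.b (G.s i) := dist_le_zero.mp h11
        obtain ⟨a, ha⟩ := cd_eq (G := G) (G.s j) (G.s i)
        rw [cd_of_b_eq e1] at ha
        have ha' := abs_eq_zero.mp ha.symm
        have e2 : G.cd (2 * x - G.s i) (G.s j) = G.cd (2 * x - G.s i) (G.s i) :=
          cd_congr (-a) (Or.inl (by push_cast; linarith))
        linarith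
      · have e1 : G.b (G.s j) = G.b (2 * x - G.s i) := dist_le_zero.mp h11
        exact h j hj (cd_of_b_eq e1.symm)

theorem deep_unif {q : ℂ} (hq : q ∈ interior G.carrier) {t0 : ℝ} (ht0 : 0 < t0) :
    ∃ η > 0, ∀ p ∈ G.carrier, ∀ t : ℝ, t0 ≤ t → t ≤ 1 → ∀ w, η ≤ dist (p + (t : ℂ) * (q - p)) (G.b w) := by
  set F : ℂ × ℝ → ℂ := fun z => z.1 + (z.2 : ℂ) * (q - z.1) with hF
  have hFc : Continuous F := by rw [hF]; fun_prop
  set K := F '' (G.carrier ×ˢ Icc t0 1) with hK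
  have hKc : IsCompact K := (G.compact.prod isCompact_Icc).image hFc
  have hcl : IsClosed (range G.b) := by rw [G.range_b]; exact isClosed_frontier
  have hne : (range G.b).Nonempty := range_nonempty _
  rcases K.eq_empty_or_nonempty with hE | hE
  · refine ⟨1, one_pos, fun p hp t h0 h1 w => ?_⟩
    have : F (p, t) ∈ K := ⟨(p, t), ⟨hp, h0, h1⟩, rfl⟩
    rw [hE] at this
    exact this.elim
  · obtain ⟨z, hz, hmin⟩ := hKc.exists_isMinOn hE (Metric.continuous_infDist_pt (range G.b)).continuousOn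
    refine ⟨Metric.infDist z (range G.b), ?_, fun p hp t h0 h1 w => ?_⟩
    · apply (hcl.notMem_iff_infDist_pos hne).mp
      obtain ⟨⟨p, t⟩, ⟨hp, h0, h1⟩, rfl⟩ := hz
      rw [G.range_b]
      intro h
      have h2 := G.convex.add_smul_sub_mem_interior hp hq (t := t) ⟨by linarith, h1⟩
      rw [Complex.real_smul] at h2
      exact h.2 h2
    · have h2 : F (p, t) ∈ K := ⟨(p, t), ⟨hp, h0, h1⟩, rfl⟩
      have h3 : Metric.infDist z (range G.b) ≤ Metric.infDist (F (p, t)) (range G.b) := hmin h2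
      exact h3.trans (Metric.infDist_le_dist_of_mem (mem_range_self w))

theorem exists_gap (V : Finset ℝ) (hV : ∀ v ∈ V, 0 ≤ v) : ∃ κ > 0, ∀ v ∈ V, v = 0 ∨ κ ≤ v := by
  classical
  rcases (V.filter (fun v => v ≠ 0)).eq_empty_or_nonempty with h | h
  · refine ⟨1, one_pos, fun v hv => ?_⟩
    left
    by_contra hne
    have : v ∈ V.filter (fun v => v ≠ 0) := Finset.mem_filter.mpr ⟨hv, hne⟩
    rw [h] at this
    exact absurd this (Finset.notMem_empty v)
  · refine ⟨(V.filter (fun v => v ≠ 0)).min' h, ?_, fun v hv => ?_⟩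
    · have := Finset.mem_filter.mp ((V.filter (fun v => v ≠ 0)).min'_mem h)
      exact lt_of_le_of_ne (hV _ this.1) this.2.symm
    · by_cases h0 : v = 0
      · exact Or.inl h0
      · exact Or.inr (Finset.min'_le _ _ (Finset.mem_filter.mpr ⟨hv, h0⟩))

/-- **The rigidity theorem.** -/
theorem main (G : ConvexPolygon) (y₀ : ℝ) : {x | x ∈ Ico 0 G.L ∧ ∃ ψ, Mp G x y₀ ψ}.Finite := by
  classical
  by_contra hinf
  have hS : {x | x ∈ Ico 0 G.L ∧ ∃ ψ, Mp G x y₀ ψ}.Infinite := hinf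
  have hL := G.L_pos
  -- remove the folds at corners
  set Bad : Set ℝ := {x | x ∈ Ico 0 G.L ∧ ∃ i < G.n, G.cd x (G.s i) = 0 ∨ G.cd (x + G.L / 2) (G.s i) = 0}
    with hBad
  have hBadF : Bad.Finite := by
    set T : Finset ℂ := (Finset.range G.n).image (fun i => G.b (G.s i)) ∪
      (Finset.range G.n).image (fun i => G.b (G.s i - G.L / 2)) with hT
    have hsub : Bad ⊆ {x | x ∈ Ico 0 G.L ∧ G.b x ∈ T} := by
      rintro x ⟨hx, i, hi, h | h⟩
      · refine ⟨hx, ?_⟩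
        rw [hT, Finset.mem_union]
        left
        exact Finset.mem_image.mpr ⟨i, Finset.mem_range.mpr hi, (b_eq_of_cd h).symm⟩
      · refine ⟨hx, ?_⟩
        rw [hT, Finset.mem_union]
        right
        refine Finset.mem_image.mpr ⟨i, Finset.mem_range.mpr hi, (b_eq_of_cd ?_).symm⟩
        rw [← h]
        exact cd_congr 0 (Or.inl (by push_cast; ring))
    refine Set.Finite.subset ?_ hsub
    have : {x | x ∈ Ico 0 G.L ∧ G.b x ∈ T} = Ico 0 G.L ∩ G.b ⁻¹' (T : Set ℂ) := rfl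
    rw [this]
    exact Set.Finite.of_finite_image ((T.finite_toSet).subset (by rintro _ ⟨x, hx, rfl⟩; exact hx.2))
      (G.injOn.mono inter_subset_left)
  set S' : Set ℝ := {x | x ∈ Ico 0 G.L ∧ ∃ ψ, Mp G x y₀ ψ} \ Bad with hS'
  have hS'inf : S'.Infinite := hS.diff hBadF
  have hS'1 : ∀ x ∈ S', ∀ i < G.n, G.cd x (G.s i) ≠ 0 := fun x hx i hi h =>
    hx.2 ⟨hx.1.1, i, hi, Or.inl h⟩
  have hS'2 : ∀ x ∈ S', ∀ i < G.n, G.cd (x + G.L / 2) (G.s i) ≠ 0 := fun x hx i hi h =>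
    hx.2 ⟨hx.1.1, i, hi, Or.inr h⟩
  choose! ψ hψ using fun x (hx : x ∈ S') => hx.1.2
  -- finite list of singular points
  set Λ : Finset ℂ := (Finset.range G.n).image (fun i => G.b (G.s i)) ∪ {G.b y₀, G.b (y₀ + G.L / 2)} with hΛ
  have hΛm : ∀ l ∈ Λ, l ∈ G.carrier := by
    intro l hl
    rw [hΛ, Finset.mem_union] at hl
    rcases hl with hl | hl
    · obtain ⟨i, -, rfl⟩ := Finset.mem_image.mp hl
      exact G.b_mem _
    · rw [Finset.mem_insert, Finset.mem_singleton] at hl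
      rcases hl with rfl | rfl <;> exact G.b_mem _
  have hrep : ∀ p ∈ G.carrier, ¬ Reg G y₀ p → ∃ l ∈ Λ, G.gdist y₀ p l = 0 := by
    intro p hp h
    rcases exists_of_not_reg hp h with ⟨i, hi, h⟩ | h | h
    · exact ⟨_, Finset.mem_union_left _ (Finset.mem_image.mpr ⟨i, Finset.mem_range.mpr hi, rfl⟩), h⟩
    · exact ⟨_, Finset.mem_union_right _ (by simp), h⟩
    · exact ⟨_, Finset.mem_union_right _ (by simp), h⟩
  have hrep' : ∀ x ∈ S', ∀ p ∈ G.carrier, ¬ Reg G x p → ∃ l ∈ Λ, G.gdist y₀ (ψ x p) l = 0 := fun x hx p hp h =>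
    hrep _ ((hψ x hx).mem p hp) fun h' => h ((hψ x hx).reg hp h')
  obtain ⟨κ, hκ0, hκ⟩ := exists_gap ((Λ ×ˢ Λ).image fun z => G.gdist y₀ z.1 z.2) (by
    intro v hv
    obtain ⟨z, -, rfl⟩ := Finset.mem_image.mp hv
    exact gdist_nonneg G _ _ _)
  have hgap : ∀ x ∈ S', ∀ p ∈ G.carrier, ∀ q ∈ G.carrier, ¬ Reg G x p → ¬ Reg G x q →
      G.gdist x p q = 0 ∨ κ ≤ G.gdist x p q := by
    intro x hx p hp q hq h1 h2
    obtain ⟨l, hl, e1⟩ := hrep' x hx p hp h1
    obtain ⟨m, hm, e2⟩ := hrep' x hx q hq h2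
    have e3 := zero_transport ((hψ x hx).mem p hp) (hΛm l hl) ((hψ x hx).mem q hq) (hΛm m hm) e1 e2
    rw [(hψ x hx).iso p hp q hq] at e3
    rw [e3]
    exact hκ _ (Finset.mem_image.mpr ⟨(l, m), Finset.mem_product.mpr ⟨hl, hm⟩, rfl⟩)
  -- scales
  obtain ⟨c0, hc00, hcor⟩ := cor_of_corner G
  have hc0 : ∀ i < G.n, ∀ k : ℤ, LS G (G.s i + k * G.L) c0 := fun i hi k => (hcor i hi k).ls
  have hc0' : ∀ i < G.n, LS G (G.s i) c0 := fun i hi => by
    have := hc0 i hi 0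
    rwa [Int.cast_zero, zero_mul, add_zero] at this
  set c := min c0 κ with hc
  have hcpos : 0 < c := lt_min hc00 hκ0
  have hk1 : ∀ x : ℝ, 2 * x - x = x + ((0 : ℤ) : ℝ) * G.L := by intro x; push_cast; ring
  have hk2 : ∀ x : ℝ, 2 * x - (x + G.L / 2) = (x + G.L / 2) + ((-1 : ℤ) : ℝ) * G.L := by
    intro x; push_cast; ring
  have hfar1 : ∀ x ∈ S', ∀ i < G.n, c ≤ G.cd x (G.s i) := fun x hx i hi =>
    fold_sep (hk1 x) (hS'1 x hx) hc0' (fun i hi => hgap x hx _ (G.b_mem _) _ (G.b_mem _)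
      (sing_fold (hk1 x) (hS'1 x hx)) (sing_corner x hi)) i hi
  have hfar2 : ∀ x ∈ S', ∀ i < G.n, c ≤ G.cd (x + G.L / 2) (G.s i) := fun x hx i hi =>
    fold_sep (hk2 x) (hS'2 x hx) hc0' (fun i hi => hgap x hx _ (G.b_mem _) _ (G.b_mem _)
      (sing_fold (hk2 x) (hS'2 x hx)) (sing_corner x hi)) i hi
  have hfar3 : ∀ x ∈ S', ∀ i < G.n, c ≤ G.cd (2 * x - G.s i) (G.s i) := fun x hx i hi =>
    partner_far (hfar1 x hx i hi) (hfar2 x hx i hi) hcpos
  have hls3 : ∀ x ∈ S', ∀ i < G.n, LS G (2 * x - G.s i) c := fun x hx i hi =>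
    partner_ls hi (min_le_left _ _) (min_le_right _ _) hcpos hc0 (hfar3 x hx i hi)
      (fun j hj => hgap x hx _ (G.b_mem _) _ (G.b_mem _) (sing_corner x hi) (sing_corner x hj))
  obtain ⟨ρ', hρ', hsep'⟩ := exists_sep G hcpos
  set ρ := min ρ' c with hρdef
  have hρ : 0 < ρ := lt_min hρ' hcpos
  have hsep : Sep G c ρ := fun u w h => (min_le_left _ _).trans (hsep' u w h)
  have hρc : ρ ≤ c := min_le_right _ _
  -- good points
  have good1 : ∀ x ∈ S', ∀ z ∈ G.carrier, min ρ (dist (G.b x) z) ≤ G.gdist x (G.b x) z := by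
    intro x hx z hz
    have hls : LS G x c := (str_of_far (hfar1 x hx)).ls
    have e : 2 * x - x = x := by ring
    have h := lb_pair (x := x) (u := x) hls (by rw [e]; exact hls) hsep hρc hρ.le hz
    rw [e, min_self, dist_comm] at h
    exact h
  have good2 : ∀ x ∈ S', ∀ i < G.n, ∀ z ∈ G.carrier, dist (G.b (G.s i)) z ≤ ρ / 2 →
      G.gdist x (G.b (G.s i)) z = dist (G.b (G.s i)) z := by
    intro x hx i hi z hz hd
    apply le_antisymm (gdist_le_dist (G.b_mem _) hz)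
    have h := lb_pair (x := x) (u := G.s i) ((hc0' i hi).mono (min_le_left _ _)) (hls3 x hx i hi) hsep hρc
      hρ.le hz
    refine le_trans ?_ h
    refine le_min (by linarith) (le_min (by rw [dist_comm]) ?_)
    have h1 := hsep _ _ (hfar3 x hx i hi)
    have h2 := dist_triangle (G.b (2 * x - G.s i)) z (G.b (G.s i))
    rw [dist_comm z (G.b (G.s i))] at h2
    rw [dist_comm z]
    linarith
  -- three interior points
  obtain ⟨a0, ha0⟩ := G.nonflat
  obtain ⟨r1, hr1, hball⟩ := Metric.isOpen_iff.mp isOpen_interior a0 ha0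
  set Q : Fin 3 → ℂ := ![a0, a0 + ((r1 / 2 : ℝ) : ℂ), a0 + ((r1 / 2 : ℝ) : ℂ) * Complex.I] with hQ
  have hQ0 : Q 0 = a0 := rfl
  have hQ1 : Q 1 = a0 + ((r1 / 2 : ℝ) : ℂ) := rfl
  have hQ2 : Q 2 = a0 + ((r1 / 2 : ℝ) : ℂ) * Complex.I := rfl
  have hr2 : 0 < r1 / 2 := by linarith
  have hQint : ∀ j, Q j ∈ interior G.carrier := by
    intro j
    apply hball
    rw [Metric.mem_ball]
    fin_cases j
    · simpa [hQ] using hr1
    · simp only [hQ]
      simp [dist_eq_norm, abs_of_pos hr1]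
      linarith
    · simp only [hQ]
      simp [dist_eq_norm, abs_of_pos hr1]
      linarith
  have hQm : ∀ j, Q j ∈ G.carrier := fun j => interior_subset (hQint j)
  have hQb : ∀ j, Q j ∉ range G.b := by
    intro j h
    rw [G.range_b] at h
    exact h.2 (hQint j)
  have hQd : ∀ j k, j ≠ k → r1 / 2 ≤ dist (Q j) (Q k) := by
    have e01 : r1 / 2 ≤ dist (Q 0) (Q 1) := by
      rw [hQ0, hQ1, dist_eq_norm, sub_add_cancel_left, norm_neg, Complex.norm_real, Real.norm_eq_abs,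
        abs_of_pos hr2]
    have e02 : r1 / 2 ≤ dist (Q 0) (Q 2) := by
      rw [hQ0, hQ2, dist_eq_norm, sub_add_cancel_left, norm_neg, norm_mul, Complex.norm_real,
        Real.norm_eq_abs, abs_of_pos hr2, Complex.norm_I, mul_one]
    have e12 : r1 / 2 ≤ dist (Q 1) (Q 2) := by
      rw [hQ1, hQ2, dist_eq_norm, add_sub_add_left_eq_sub]
      have := Complex.abs_re_le_norm (((r1 / 2 : ℝ) : ℂ) - ((r1 / 2 : ℝ) : ℂ) * Complex.I)
      rw [Complex.sub_re, Complex.re_ofReal_mul, Complex.I_re, mul_zero, sub_zero, Complex.ofReal_re,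
        abs_of_pos hr2] at this
      exact this
    intro j k hjk
    fin_cases j <;> fin_cases k
    · exact absurd rfl hjk
    · exact e01
    · exact e02
    · rw [dist_comm]; exact e01
    · exact absurd rfl hjk
    · exact e12
    · rw [dist_comm]; exact e02
    · rw [dist_comm]; exact e12
    · exact absurd rfl hjk
  choose ρj hρj0 hρj using fun j => exists_rad (hQb j)
  set ρq := min (ρj 0) (min (ρj 1) (ρj 2)) with hρq
  have hρq0 : 0 < ρq := lt_min (hρj0 0) (lt_min (hρj0 1) (hρj0 2))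
  have hρqj : ∀ j, ρq ≤ ρj j := by
    intro j
    fin_cases j
    · exact min_le_left _ _
    · exact (min_le_right _ _).trans (min_le_left _ _)
    · exact (min_le_right _ _).trans (min_le_right _ _)
  have hQdeep : ∀ j w, ρq ≤ dist (Q j) (G.b w) := fun j w => (hρqj j).trans (hρj j w)
  -- constants
  set R := min (ρ / 2) (ρq / 2) with hR
  have hR0 : 0 < R := lt_min (by linarith) (by linarith)
  have hRρ : R ≤ ρ / 2 := min_le_left _ _
  have hRq : R ≤ ρq / 2 := min_le_right _ _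
  set r := min (R / 4) (r1 / 8) with hr
  have hr0 : 0 < r := lt_min (by linarith) (by linarith)
  have hrR : 4 * r ≤ R := by have := min_le_left (R / 4) (r1 / 8); linarith
  have hrr1 : r < r1 / 2 := by have := min_le_right (R / 4) (r1 / 8); linarith
  obtain ⟨D, hD⟩ := Metric.isBounded_iff.mp G.compact.isBounded
  set D' := max D 1 with hD'
  have hD'0 : 0 < D' := lt_of_lt_of_le one_pos (le_max_right _ _)
  have hD'm : ∀ p ∈ G.carrier, ∀ q ∈ G.carrier, dist p q ≤ D' := fun p hp q hq =>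
    (hD hp hq).trans (le_max_left _ _)
  choose ηj hηj0 hηj using fun j => deep_unif (hQint j) (t0 := r / D') (div_pos hr0 hD'0)
  set η := min (ηj 0) (min (ηj 1) (ηj 2)) with hη
  have hη0 : 0 < η := lt_min (hηj0 0) (lt_min (hηj0 1) (hηj0 2))
  have hηle : ∀ j, η ≤ ηj j := by
    intro j
    fin_cases j
    · exact min_le_left _ _
    · exact (min_le_right _ _).trans (min_le_left _ _)
    · exact (min_le_right _ _).trans (min_le_right _ _)
  have hdeep : ∀ j, ∀ p ∈ G.carrier, r < dist p (Q j) → ∀ t : ℝ, r / dist p (Q j) ≤ t → t ≤ 1 →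
      ∀ w, η ≤ dist (p + (t : ℂ) * (Q j - p)) (G.b w) := by
    intro j p hp hd t h0 h1 w
    refine (hηle j).trans (hηj j p hp t (le_trans ?_ h0) h1 w)
    exact div_le_div_of_nonneg_left hr0.le (hr0.trans hd) (hD'm p hp _ (hQm j))
  set ε := min r (η / 4) with hε
  have hε0 : 0 < ε := lt_min hr0 (by linarith)
  have hεr : ε ≤ r := min_le_left _ _
  have hεη : 4 * ε ≤ η := by have := min_le_right r (η / 4); linarith
  have hερ : ε ≤ ρ := by linarith
  have hεq : ε ≤ ρq / 2 := by linarith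
  -- the net
  obtain ⟨F0, hF0s, hF0f, hF0⟩ := G.compact.finite_cover_balls (e := ε / 4) (by linarith)
  set F := hF0f.toFinset with hF
  have hFm : ∀ f ∈ F, f ∈ G.carrier := fun f hf => hF0s (hF0f.mem_toFinset.mp hf)
  have hFc : ∀ p ∈ G.carrier, ∃ f ∈ F, dist p f < ε / 4 := by
    intro p hp
    obtain ⟨f, hf, hf'⟩ := mem_iUnion₂.mp (hF0 hp)
    exact ⟨f, hF0f.mem_toFinset.mpr hf, hf'⟩
  -- the colouring
  have hcol : ∀ x : S', ∃ t : (F → F) × Λ × (Fin G.n → Λ) × Fin G.n,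
      (∀ f : F, dist (ψ x f) (t.1 f) < ε / 4) ∧ G.gdist y₀ (ψ x (G.b x)) t.2.1 = 0 ∧
      (∀ i : Fin G.n, G.gdist y₀ (ψ x (G.b (G.s i))) (t.2.2.1 i) = 0) ∧
      (G.s t.2.2.2 ≤ x ∧ (x : ℝ) < G.s (t.2.2.2 + 1)) := by
    rintro ⟨x, hx⟩
    have hm := hψ x hx
    have h1 : ∀ f : F, ∃ g : F, dist (ψ x f) g < ε / 4 := by
      rintro ⟨f, hf⟩
      obtain ⟨g, hg, hg'⟩ := hFc _ (hm.mem f (hFm f hf))
      exact ⟨⟨g, hg⟩, hg'⟩
    choose A hA using h1
    obtain ⟨l, hl, hl'⟩ := hrep' x hx _ (G.b_mem x) (sing_fold (hk1 x) (hS'1 x hx))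
    have h2 : ∀ i : Fin G.n, ∃ m : Λ, G.gdist y₀ (ψ x (G.b (G.s i))) m = 0 := by
      rintro ⟨i, hi⟩
      obtain ⟨m, hm1, hm2⟩ := hrep' x hx _ (G.b_mem (G.s i)) (sing_corner x hi)
      exact ⟨⟨m, hm1⟩, hm2⟩
    choose M hM using h2
    obtain ⟨i, hi, h3, h4⟩ := exists_edge hx.1.1.1 hx.1.1.2
    exact ⟨(A, ⟨l, hl⟩, M, ⟨i, hi⟩), hA, hl', hM, h3, h4⟩
  choose C hC1 hC2 hC3 hC4 using hcol
  have : Infinite S' := hS'inf.to_subtype
  obtain ⟨⟨x, hx⟩, ⟨y, hy⟩, hne, hcc⟩ := Finite.exists_ne_map_eq_of_infinite C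
  have hxy : x ≠ y := fun h => hne (Subtype.ext h)
  have X1 := hC1 ⟨x, hx⟩
  have X2 := hC2 ⟨x, hx⟩
  have X3 := hC3 ⟨x, hx⟩
  have X4 := hC4 ⟨x, hx⟩
  have Y1 := hC1 ⟨y, hy⟩
  have Y2 := hC2 ⟨y, hy⟩
  have Y3 := hC3 ⟨y, hy⟩
  have Y4 := hC4 ⟨y, hy⟩
  rw [← hcc] at Y1 Y2 Y3 Y4
  clear hcc
  generalize C ⟨x, hx⟩ = t at X1 X2 X3 X4 Y1 Y2 Y3 Y4
  obtain ⟨A, l, M, i, hi⟩ := t
  simp only at X1 X2 X3 X4 Y1 Y2 Y3 Y4
  have hmx := hψ x hx
  have hmy := hψ y hy
  -- the isometry close to the identity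
  have hch : ∀ p, ∃ a, p ∈ G.carrier → a ∈ G.carrier ∧ G.gdist y₀ (ψ y a) (ψ x p) = 0 := by
    intro p
    by_cases hp : p ∈ G.carrier
    · obtain ⟨a, ha, h⟩ := hmy.surj _ (hmx.mem p hp)
      exact ⟨a, fun _ => ⟨ha, h⟩⟩
    · exact ⟨0, fun h => absurd h hp⟩
  choose φ hφ using hch
  have hclose0 : ∀ p ∈ G.carrier, G.gdist y₀ (ψ x p) (ψ y p) < ε := by
    intro p hp
    obtain ⟨f, hf, hf'⟩ := hFc p hp
    have hfm := hFm f hf
    have e1 := X1 ⟨f, hf⟩
    have e2 := Y1 ⟨f, hf⟩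
    simp only at e1 e2
    have g1 := gdist_triangle (x := y₀) (hmx.mem p hp) (hmx.mem f hfm) (hmy.mem p hp)
    have g2 := gdist_triangle (x := y₀) (hmx.mem f hfm) (hFm _ (A ⟨f, hf⟩).2) (hmy.mem p hp)
    have g3 := gdist_triangle (x := y₀) (hFm _ (A ⟨f, hf⟩).2) (hmy.mem f hfm) (hmy.mem p hp)
    have k1 := (hmx.iso p hp f hfm).trans_le (gdist_le_dist (x := x) hp hfm)
    have k2 := gdist_le_dist (x := y₀) (hmx.mem f hfm) (hFm _ (A ⟨f, hf⟩).2)
    have k3 := gdist_le_dist (x := y₀) (hFm _ (A ⟨f, hf⟩).2) (hmy.mem f hfm)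
    have k4 := (hmy.iso f hfm p hp).trans_le (gdist_le_dist (x := y) hfm hp)
    rw [dist_comm] at k3 k4
    linarith
  have near : Near G x y ε φ := by
    refine ⟨fun a ha => (hφ a ha).1, fun a ha b hb => ?_, fun a ha => ?_⟩
    · rw [← hmy.iso _ (hφ a ha).1 _ (hφ b hb).1, zero_transport (hmy.mem _ (hφ a ha).1)
        (hmx.mem a ha) (hmy.mem _ (hφ b hb).1) (hmx.mem b hb) (hφ a ha).2 (hφ b hb).2, hmx.iso a ha b hb]
    · rw [← hmy.iso _ (hφ a ha).1 _ ha, zero_transport (hmy.mem _ (hφ a ha).1)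
        (hmx.mem a ha) (hmy.mem _ ha) (hmy.mem _ ha) (hφ a ha).2 (gdist_self G y₀ _)]
      exact hclose0 a ha
  -- the fold point and the corner
  have zfold : G.gdist y (φ (G.b x)) (G.b y) = 0 := by
    have hb := G.b_mem x
    rw [← hmy.iso _ (hφ _ hb).1 _ (G.b_mem y), zero_transport (hmy.mem _ (hφ _ hb).1)
      (hmx.mem _ hb) (hmy.mem _ (G.b_mem y)) (hΛm _ l.2) (hφ _ hb).2 Y2,
      zero_transport (hmx.mem _ hb) (hΛm _ l.2) (hΛm _ l.2) (hΛm _ l.2) X2 (gdist_self G y₀ _)]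
    exact gdist_self G y₀ _
  have zcorner : G.gdist y (φ (G.b (G.s i))) (G.b (G.s i)) = 0 := by
    have hb := G.b_mem (G.s i)
    have X3' := X3 ⟨i, hi⟩
    have Y3' := Y3 ⟨i, hi⟩
    simp only at X3' Y3'
    rw [← hmy.iso _ (hφ _ hb).1 _ hb, zero_transport (hmy.mem _ (hφ _ hb).1)
      (hmx.mem _ hb) (hmy.mem _ hb) (hΛm _ (M ⟨i, hi⟩).2) (hφ _ hb).2 Y3',
      zero_transport (hmx.mem _ hb) (hΛm _ (M ⟨i, hi⟩).2) (hΛm _ (M ⟨i, hi⟩).2) (hΛm _ (M ⟨i, hi⟩).2) X3'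
        (gdist_self G y₀ _)]
    exact gdist_self G y₀ _
  have dfold : dist (G.b x) (G.b y) < ε := by
    have e1 := near.close _ (G.b_mem x)
    rw [zero_transport (near.mem _ (G.b_mem x)) (G.b_mem y) (G.b_mem x) (G.b_mem x) zfold
      (gdist_self G y _)] at e1
    have e2 := good1 y hy (G.b x) (G.b_mem x)
    rcases min_lt_iff.mp (lt_of_le_of_lt e2 e1) with h | h
    · linarith
    · rwa [dist_comm] at h
  have locx : ∀ x ∈ S', ∀ z ∈ G.carrier, dist (G.b x) z ≤ R → G.gdist x (G.b x) z = dist (G.b x) z := by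
    intro x hx z hz hd
    have h := good1 x hx z hz
    rw [min_eq_right (by linarith)] at h
    exact le_antisymm (gdist_le_dist (G.b_mem _) hz) h
  have locv : ∀ x ∈ S', ∀ z ∈ G.carrier, dist (G.b (G.s i)) z ≤ R →
      G.gdist x (G.b (G.s i)) z = dist (G.b (G.s i)) z := fun x hx z hz hd =>
    good2 x hx i hi z hz (by linarith)
  have hbQ : ∀ w j, r < dist (G.b w) (Q j) := by
    intro w j
    have := hQdeep j w
    rw [dist_comm] at this
    linarith
  have F1 : ∀ j, dist (G.b y) (φ (Q j)) = dist (G.b x) (Q j) := fun j =>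
    chain near (G.b_mem x) (G.b_mem y) (hQm j) (locx x hx) (locx y hy) zfold dfold hε0 hr0 hrR hεr hεη
      (hbQ x j) (hdeep j _ (G.b_mem x) (hbQ x j))
  have F2 : ∀ j, dist (G.b (G.s i)) (φ (Q j)) = dist (G.b (G.s i)) (Q j) := fun j =>
    chain near (G.b_mem _) (G.b_mem _) (hQm j) (locv x hx) (locv y hy) zcorner (by rw [dist_self]; exact hε0)
      hε0 hr0 hrR hεr hεη (hbQ _ j) (hdeep j _ (G.b_mem _) (hbQ _ j))
  have F3 : ∀ j k, j ≠ k → dist (φ (Q k)) (φ (Q j)) = dist (Q k) (Q j) := by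
    intro j k hjk
    have hd : r < dist (Q k) (Q j) := hrr1.trans_le (hQd k j hjk.symm)
    refine chain near (hQm k) (near.mem _ (hQm k)) (hQm j) ?_ ?_ (gdist_self G y _)
      (near.dist_lt (hQm k) (by linarith) hε0 (hQdeep k)) hε0 hr0 hrR hεr hεη hd
      (hdeep j _ (hQm k) hd)
    · intro z hz hz'
      have h := lb_int (x := x) (hQm k) (hQdeep k) hρq0.le hz
      rw [min_eq_right (by linarith)] at h
      exact le_antisymm (gdist_le_dist (hQm k) hz) h
    · intro z hz hz'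
      have h := lb_int (x := y) (near.mem _ (hQm k)) (near.deep (hQm k) (by linarith) hε0 (hQdeep k))
        (by linarith) hz
      rw [min_eq_right (by linarith)] at h
      exact le_antisymm (gdist_le_dist (near.mem _ (hQm k)) hz) h
  have hcr : cr (Q 1 - Q 0) (Q 2 - Q 0) ≠ 0 := by
    rw [hQ0, hQ1, hQ2, add_sub_cancel_left, add_sub_cancel_left]
    unfold cr
    simp
    exact hr1.ne'
  have hgram := gram hcr (F3 1 0 (by decide)) (F3 2 0 (by decide)) (F3 2 1 (by decide))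
    (F1 0) (F1 1) (F1 2) (F2 0) (F2 1) (F2 2)
  -- positions on the edge
  have hpos : ∀ u, G.s i ≤ u → u < G.s (i + 1) → dist (G.b u) (G.b (G.s i)) = u - G.s i := by
    intro u h0 h1
    rw [G.b_eq i hi u ⟨h0, h1.le⟩, dist_eq_norm, add_sub_cancel_left, norm_mul, G.e_norm i hi, mul_one,
      Complex.norm_real, Real.norm_eq_abs, abs_of_nonneg (by linarith)]
  rw [hpos x X4.1 X4.2, hpos y Y4.1 Y4.2] at hgram
  exact hxy (by linarith)

end ConvexPolygon

end Q105.PH
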