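import Pool.Agent.Q105.PH.Loc

set_option autoImplicit false

/-! # Convexity at the boundary -/

namespace Q105.PH

open Set

/-- inner product in coordinates -/
def ip (a b : ℂ) : ℝ := a.re * b.re + a.im * b.im

def cr (a b : ℂ) : ℝ := a.re * b.im - a.im * b.re

theorem ip_self (a : ℂ) : ip a a = ‖a‖ ^ 2 := by
  rw [← Complex.normSq_eq_norm_sq, Complex.normSq_apply]; rfl

theorem ip_add_right (a b c : ℂ) : ip a (b + c) = ip a b + ip a c := by
  unfold ip; simp only [Complex.add_re, Complex.add_im]; ring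

theorem ip_sub_right (a b c : ℂ) : ip a (b - c) = ip a b - ip a c := by
  unfold ip; simp only [Complex.sub_re, Complex.sub_im]; ring

theorem ip_real_right (a b : ℂ) (t : ℝ) : ip a ((t : ℂ) * b) = t * ip a b := by
  unfold ip; simp only [Complex.re_ofReal_mul, Complex.im_ofReal_mul]; ring

theorem ip_comm (a b : ℂ) : ip a b = ip b a := by unfold ip; ring

namespace ConvexPolygon

variable {G : ConvexPolygon}

/-- a supporting line at a boundary point -/
theorem exists_support (t : ℝ) : ∃ g : ℂ, g ≠ 0 ∧ ∀ w ∈ G.carrier, ip g (w - G.b t) ≤ 0 := by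
  have h1 : G.b t ∉ interior G.carrier := fun h => (G.b_frontier t).2 h
  obtain ⟨f, hf⟩ := geometric_hahn_banach_open_point G.convex.interior isOpen_interior h1
  have hrep : ∀ z : ℂ, f z = ip ⟨f 1, f Complex.I⟩ z := by
    intro z
    have hz : z = (z.re : ℝ) • (1 : ℂ) + (z.im : ℝ) • Complex.I := by
      apply Complex.ext <;> simp
    conv_lhs => rw [hz]
    rw [map_add, map_smul, map_smul]
    unfold ip
    simp only [smul_eq_mul]; ring
  refine ⟨⟨f 1, f Complex.I⟩, ?_, fun w hw => ?_⟩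
  · intro h0
    obtain ⟨a, ha⟩ := G.nonflat
    have := hf a ha
    have e1 : f 1 = 0 := congrArg Complex.re h0
    have e2 : f Complex.I = 0 := congrArg Complex.im h0
    rw [hrep a, hrep (G.b t), e1, e2] at this
    simp [ip] at this
  · rw [ip_sub_right, ← hrep, ← hrep, sub_nonpos]
    have hcl : w ∈ closure (interior G.carrier) := by
      rw [G.convex.closure_interior_eq_closure_of_nonempty_interior G.nonflat]
      exact subset_closure hw
    have hc : IsClosed {z : ℂ | f z ≤ f (G.b t)} := isClosed_le f.continuous continuous_const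
    exact closure_minimal (fun a ha => (hf a ha).le) hc hcl

theorem norm_one_sq {τ : ℂ} (h : ‖τ‖ = 1) : τ.re ^ 2 + τ.im ^ 2 = 1 := by
  have := ip_self τ
  rw [h] at this
  unfold ip at this
  nlinarith

/-- at a straight boundary point the polygon contains no other symmetric pairs than the ones on the
edge -/
theorem line_of_str {x c : ℝ} (hc : 0 < c) {τ : ℂ} (hτ : ‖τ‖ = 1)
    (h : ∀ t : ℝ, |t| ≤ c → G.b (x + t) = G.b x + (t : ℂ) * τ) {v : ℂ}
    (h1 : G.b x + v ∈ G.carrier) (h2 : G.b x - v ∈ G.carrier) : ∃ l : ℝ, v = (l : ℂ) * τ := by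
  obtain ⟨g, hg0, hg⟩ := exists_support (G := G) x
  have a1 := hg _ (G.b_mem (x + c))
  have a2 := hg _ (G.b_mem (x + -c))
  rw [h c (by rw [abs_of_pos hc]), add_sub_cancel_left, ip_real_right] at a1
  rw [h (-c) (by rw [abs_neg, abs_of_pos hc]), add_sub_cancel_left, ip_real_right] at a2
  have a3 := hg _ h1
  have a4 := hg _ h2
  rw [add_sub_cancel_left] at a3
  rw [show G.b x - v - G.b x = (((-1 : ℝ) : ℝ) : ℂ) * v by push_cast; ring, ip_real_right] at a4
  have b1 : ip g τ = 0 := by nlinarith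
  have b2 : ip g v = 0 := by linarith
  have hcr : τ.re * v.im - τ.im * v.re = 0 := by
    by_contra hne
    apply hg0
    unfold ip at b1 b2
    have e1 : g.re * (τ.re * v.im - τ.im * v.re) = 0 := by linear_combination v.im * b1 - τ.im * b2
    have e2 : g.im * (τ.re * v.im - τ.im * v.re) = 0 := by linear_combination τ.re * b2 - v.re * b1
    have e3 : g.re = 0 := (mul_eq_zero.mp e1).resolve_right hne
    have e4 : g.im = 0 := (mul_eq_zero.mp e2).resolve_right hne
    exact Complex.ext e3 e4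
  have hn := norm_one_sq hτ
  refine ⟨ip v τ, ?_⟩
  unfold ip
  apply Complex.ext
  · rw [Complex.re_ofReal_mul]
    linear_combination (-v.re) * hn - τ.im * hcr
  · rw [Complex.im_ofReal_mul]
    linear_combination (-v.im) * hn + τ.re * hcr

/-- at a corner the polygon lies strictly on one side -/
theorem corner_pos {u c : ℝ} (hc : 0 < c) (hcL : 2 * c < G.L) {τ τ' : ℂ} (hτ : ‖τ‖ = 1)
    (hτ' : ‖τ'‖ = 1) (hne : τ + τ' ≠ 0)
    (h : ∀ t : ℝ, 0 ≤ t → t ≤ c → G.b (u + t) = G.b u + (t : ℂ) * τ)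
    (h' : ∀ t : ℝ, 0 ≤ t → t ≤ c → G.b (u - t) = G.b u + (t : ℂ) * τ')
    {w : ℂ} (hw : w ∈ G.carrier) (hwu : w ≠ G.b u) : 0 < ip (w - G.b u) (τ + τ') := by
  have hn := norm_one_sq hτ
  have hn' := norm_one_sq hτ'
  -- the two directions differ
  have hd : τ ≠ τ' := by
    intro heq
    have e1 := h c hc.le le_rfl
    have e2 := h' c hc.le le_rfl
    rw [← heq, ← e1] at e2
    have e3 := cd_of_b_eq e2
    obtain ⟨k, hk⟩ := cd_eq (G := G) (u - c) (u + c)
    rw [e3] at hk
    have hk' := abs_eq_zero.mp hk.symm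
    have hL := G.L_pos
    have hk1 : (k : ℝ) * G.L = -(2 * c) := by linarith
    have hk2 : k < 0 := by
      by_contra hcon
      push Not at hcon
      have : (0 : ℝ) ≤ k := by exact_mod_cast hcon
      nlinarith
    have hk3 : (k : ℝ) ≤ -1 := by exact_mod_cast (by omega : k ≤ -1)
    nlinarith
  -- supporting lines along the two edges
  have side : ∀ (σ : ℂ), (∀ t : ℝ, 0 ≤ t → t ≤ c → G.b u + (t : ℂ) * σ ∈ range G.b) →
      ∃ g : ℂ, g ≠ 0 ∧ ip g σ = 0 ∧ ∀ w ∈ G.carrier, ip g (w - G.b u) ≤ 0 := by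
    intro σ hσ
    obtain ⟨t, ht⟩ := hσ (c / 2) (by linarith) (by linarith)
    obtain ⟨g, hg0, hg⟩ := exists_support (G := G) t
    obtain ⟨t2, ht2⟩ := hσ c hc.le le_rfl
    have a1 := hg _ (G.b_mem u)
    have a2 := hg _ (G.b_mem t2)
    rw [ht] at a1 a2
    rw [ht2] at a2
    rw [show G.b u - (G.b u + ((c / 2 : ℝ) : ℂ) * σ) = ((-(c / 2) : ℝ) : ℂ) * σ by push_cast; ring,
      ip_real_right] at a1
    rw [show G.b u + (c : ℂ) * σ - (G.b u + ((c / 2 : ℝ) : ℂ) * σ) = ((c / 2 : ℝ) : ℂ) * σ by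
      push_cast; ring, ip_real_right] at a2
    have b1 : ip g σ = 0 := by nlinarith
    refine ⟨g, hg0, b1, fun w hw => ?_⟩
    have := hg w hw
    rw [ht, show w - (G.b u + ((c / 2 : ℝ) : ℂ) * σ) = (w - G.b u) - ((c / 2 : ℝ) : ℂ) * σ by ring,
      ip_sub_right, ip_real_right, b1] at this
    linarith
  obtain ⟨g, hg0, hgτ, hg⟩ := side τ fun t h0 h1 => ⟨u + t, h t h0 h1⟩
  obtain ⟨g', hg0', hgτ', hg'⟩ := side τ' fun t h0 h1 => ⟨u - t, h' t h0 h1⟩
  set W := w - G.b u with hW
  have hW0 : W ≠ 0 := sub_ne_zero.mpr hwu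
  set κ := cr τ τ' with hκ
  set i := ip τ τ' with hi
  have hκi : κ ^ 2 + i ^ 2 = 1 := by
    rw [hκ, hi]; unfold cr ip
    linear_combination (τ'.re ^ 2 + τ'.im ^ 2) * hn + hn'
  have hsum : ip (τ + τ') (τ + τ') = 2 + 2 * i := by
    rw [hi]; unfold ip
    simp only [Complex.add_re, Complex.add_im]
    linear_combination hn + hn'
  have hdif : ip (τ - τ') (τ - τ') = 2 - 2 * i := by
    rw [hi]; unfold ip
    simp only [Complex.sub_re, Complex.sub_im]
    linear_combination hn + hn'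
  have hsum' : 0 < 2 + 2 * i := by
    rw [← hsum, ip_self]
    exact pow_pos (norm_pos_iff.mpr hne) 2
  have hdif' : 0 < 2 - 2 * i := by
    rw [← hdif, ip_self]
    exact pow_pos (norm_pos_iff.mpr (sub_ne_zero.mpr hd)) 2
  have hκ0 : 0 < κ ^ 2 := by nlinarith
  -- the first supporting line
  have aux : ∀ {σ σ' g W : ℂ}, ‖σ‖ = 1 → g ≠ 0 → ip g σ = 0 → ip g σ' ≤ 0 → ip g W ≤ 0 →
      0 < cr σ σ' ^ 2 → 0 ≤ cr σ σ' * cr σ W := by
    intro σ σ' g W hσ hg0 h0 h1 h2 hpos
    have hs := norm_one_sq hσ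
    set γ := cr σ g with hγ
    have e1 : ∀ z, ip g z = γ * cr σ z := by
      intro z
      rw [hγ]; unfold ip cr; unfold ip at h0
      linear_combination (-(g.re * z.re + g.im * z.im)) * hs + (σ.re * z.re + σ.im * z.im) * h0
    have hγ0 : γ ≠ 0 := by
      intro h
      apply hg0
      have := e1 g
      rw [h, zero_mul, ip_self] at this
      exact norm_eq_zero.mp (pow_eq_zero_iff two_ne_zero |>.mp this)
    rw [e1] at h1 h2
    have e2 : 0 ≤ (γ * cr σ σ') * (γ * cr σ W) := mul_nonneg_of_nonpos_of_nonpos h1 h2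
    have e3 : 0 < γ ^ 2 := by positivity
    have e4 : (γ * cr σ σ') * (γ * cr σ W) = γ ^ 2 * (cr σ σ' * cr σ W) := by ring
    rw [e4] at e2
    exact nonneg_of_mul_nonneg_right e2 e3
  have hτm : G.b u + ((c : ℝ) : ℂ) * τ ∈ G.carrier := h c hc.le le_rfl ▸ G.b_mem _
  have hτm' : G.b u + ((c : ℝ) : ℂ) * τ' ∈ G.carrier := h' c hc.le le_rfl ▸ G.b_mem _
  have p1 : ip g τ' ≤ 0 := by
    have := hg _ hτm'
    rw [add_sub_cancel_left, ip_real_right] at this
    nlinarith
  have p2 : ip g' τ ≤ 0 := by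
    have := hg' _ hτm
    rw [add_sub_cancel_left, ip_real_right] at this
    nlinarith
  have q1 : 0 ≤ κ * cr τ W := aux hτ hg0 hgτ p1 (hg w hw) hκ0
  have q2 : 0 ≤ cr τ' τ * cr τ' W := by
    refine aux hτ' hg0' hgτ' p2 (hg' w hw) ?_
    have : cr τ' τ = -κ := by rw [hκ]; unfold cr; ring
    rw [this, neg_sq]; exact hκ0
  have hfin : κ ^ 2 * ip W (τ + τ') = (1 + i) * (κ * cr τ W + cr τ' τ * cr τ' W) := by
    rw [hκ, hi]; unfold cr ip
    simp only [Complex.add_re, Complex.add_im]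
    linear_combination (τ.re * τ'.im - τ.im * τ'.re) * (W.re * τ'.im - W.im * τ'.re) * hn +
      (τ.re * τ'.im - τ.im * τ'.re) * (τ.re * W.im - τ.im * W.re) * hn'
  have h1i : 0 < 1 + i := by linarith
  have hsum0 : 0 ≤ κ * cr τ W + cr τ' τ * cr τ' W := add_nonneg q1 q2
  by_contra hcon
  push Not at hcon
  have hz : (1 + i) * (κ * cr τ W + cr τ' τ * cr τ' W) ≤ 0 := by
    rw [← hfin]; exact mul_nonpos_of_nonneg_of_nonpos hκ0.le hcon
  have hz' : κ * cr τ W + cr τ' τ * cr τ' W = 0 := by nlinarith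
  have hκne : κ ≠ 0 := fun h => by rw [h] at hκ0; simp at hκ0
  have z1 : cr τ W = 0 := by
    have : κ * cr τ W = 0 := by linarith
    exact (mul_eq_zero.mp this).resolve_left hκne
  have z2 : cr τ' W = 0 := by
    have h3 : cr τ' τ * cr τ' W = 0 := by linarith
    refine (mul_eq_zero.mp h3).resolve_left ?_
    intro h4
    apply hκne
    have : cr τ' τ = -κ := by rw [hκ]; unfold cr; ring
    linarith
  apply hW0
  unfold cr at z1 z2
  have hκ' : κ = τ.re * τ'.im - τ.im * τ'.re := rfl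
  have e1 : κ * W.re = 0 := by
    rw [hκ']; linear_combination τ'.re * z1 - τ.re * z2
  have e2 : κ * W.im = 0 := by
    rw [hκ']; linear_combination τ'.im * z1 - τ.im * z2
  exact Complex.ext ((mul_eq_zero.mp e1).resolve_left hκne) ((mul_eq_zero.mp e2).resolve_left hκne)

end ConvexPolygon

end Q105.PH
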