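import Pool.Agent.Q105.PH.Dist

set_option autoImplicit false

/-! # Local structure of the boundary -/

namespace Q105.PH

open Set

namespace ConvexPolygon

variable (G : ConvexPolygon)

/-- distance on the circle of circumference `L` -/
noncomputable def cd (u w : ℝ) : ℝ := |u - w - round ((u - w) / G.L) * G.L|

variable {G}

theorem cd_nonneg (u w : ℝ) : 0 ≤ G.cd u w := abs_nonneg _

theorem cd_eq (u w : ℝ) : ∃ k : ℤ, G.cd u w = |u - w - k * G.L| := ⟨_, rfl⟩

theorem cd_le (u w : ℝ) (k : ℤ) : G.cd u w ≤ |u - w - k * G.L| := by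
  have hL := G.L_pos
  have h := round_le ((u - w) / G.L) k
  unfold cd
  have h1 : ∀ m : ℤ, |u - w - m * G.L| = |(u - w) / G.L - m| * G.L := by
    intro m
    rw [← abs_of_pos hL, ← abs_mul, abs_of_pos hL]
    congr 1
    field_simp
  rw [h1, h1]
  exact mul_le_mul_of_nonneg_right h hL.le

theorem cd_comm (u w : ℝ) : G.cd u w = G.cd w u := by
  apply le_antisymm
  · obtain ⟨k, hk⟩ := cd_eq (G := G) w u
    rw [hk]
    have := cd_le (G := G) u w (-k)
    rw [show u - w - ((-k : ℤ) : ℝ) * G.L = -(w - u - k * G.L) by push_cast; ring, abs_neg] at this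
    exact this
  · obtain ⟨k, hk⟩ := cd_eq (G := G) u w
    rw [hk]
    have := cd_le (G := G) w u (-k)
    rw [show w - u - ((-k : ℤ) : ℝ) * G.L = -(u - w - k * G.L) by push_cast; ring, abs_neg] at this
    exact this

/-- `cd` depends only on the difference modulo `L`, up to sign -/
theorem cd_congr {u w u' w' : ℝ} (k : ℤ) (h : u - w = u' - w' + k * G.L ∨ u - w = -(u' - w') + k * G.L) :
    G.cd u w = G.cd u' w' := by
  have aux : ∀ {u w u' w' : ℝ} (k : ℤ), u - w = u' - w' + k * G.L → G.cd u w = G.cd u' w' := by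
    intro u w u' w' k h
    apply le_antisymm
    · obtain ⟨m, hm⟩ := cd_eq (G := G) u' w'
      rw [hm]
      have := cd_le (G := G) u w (m + k)
      rw [show u - w - ((m + k : ℤ) : ℝ) * G.L = u' - w' - m * G.L by rw [h]; push_cast; ring] at this
      exact this
    · obtain ⟨m, hm⟩ := cd_eq (G := G) u w
      rw [hm]
      have := cd_le (G := G) u' w' (m - k)
      rw [show u' - w' - ((m - k : ℤ) : ℝ) * G.L = u - w - m * G.L by rw [h]; push_cast; ring] at this
      exact this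
  rcases h with h | h
  · exact aux k h
  · rw [cd_comm u' w']
    refine aux k ?_
    rw [h]; ring

theorem b_int (u : ℝ) (k : ℤ) : G.b (u + k * G.L) = G.b u := G.periodic.int_mul k u

theorem b_eq_of_cd {u w : ℝ} (h : G.cd u w = 0) : G.b u = G.b w := by
  obtain ⟨k, hk⟩ := cd_eq (G := G) u w
  rw [h] at hk
  have h1 := abs_eq_zero.mp hk.symm
  rw [← b_int w k]; congr 1; linarith

theorem exists_mem_Ico (u : ℝ) : ∃ k : ℤ, 0 ≤ u + k * G.L ∧ u + k * G.L < G.L := by
  obtain ⟨k, hk, -⟩ := existsUnique_add_zsmul_mem_Ico G.L_pos u 0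
  simp only [zero_add, mem_Ico, zsmul_eq_mul] at hk
  exact ⟨k, hk⟩

theorem cd_of_b_eq {u w : ℝ} (h : G.b u = G.b w) : G.cd u w = 0 := by
  obtain ⟨k, hk⟩ := exists_mem_Ico (G := G) u
  obtain ⟨m, hm⟩ := exists_mem_Ico (G := G) w
  have h1 := G.injOn hk hm (by rw [b_int, b_int]; exact h)
  have h2 := cd_le (G := G) u w (m - k)
  rw [show u - w - ((m - k : ℤ) : ℝ) * G.L = 0 by push_cast; linarith, abs_zero] at h2
  exact le_antisymm h2 (cd_nonneg _ _)

/-- `b` is an isometry near `u`, on a scale `c` -/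
def LS (G : ConvexPolygon) (u c : ℝ) : Prop := ∀ t, |t| ≤ c → dist (G.b (u + t)) (G.b u) = |t|

def Str (G : ConvexPolygon) (u c : ℝ) : Prop :=
  ∃ τ : ℂ, ‖τ‖ = 1 ∧ ∀ t : ℝ, |t| ≤ c → G.b (u + t) = G.b u + (t : ℂ) * τ

def Cor (G : ConvexPolygon) (u c : ℝ) : Prop :=
  ∃ τ τ' : ℂ, ‖τ‖ = 1 ∧ ‖τ'‖ = 1 ∧ τ + τ' ≠ 0 ∧
    (∀ t : ℝ, 0 ≤ t → t ≤ c → G.b (u + t) = G.b u + (t : ℂ) * τ) ∧
    ∀ t : ℝ, 0 ≤ t → t ≤ c → G.b (u - t) = G.b u + (t : ℂ) * τ'

theorem Str.ls {u c : ℝ} (h : Str G u c) : LS G u c := by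
  obtain ⟨τ, h1, h2⟩ := h
  intro t ht
  rw [h2 t ht, dist_eq_norm, add_sub_cancel_left, norm_mul, h1, mul_one, Complex.norm_real,
    Real.norm_eq_abs]

theorem Cor.ls {u c : ℝ} (h : Cor G u c) : LS G u c := by
  obtain ⟨τ, τ', h1, h1', -, h2, h3⟩ := h
  intro t ht
  rcases le_total 0 t with h0 | h0
  · rw [h2 t h0 ((le_abs_self t).trans ht), dist_eq_norm, add_sub_cancel_left, norm_mul, h1, mul_one,
      Complex.norm_real, Real.norm_eq_abs]
  · have := h3 (-t) (by linarith) ((neg_le_abs t).trans ht)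
    rw [sub_neg_eq_add] at this
    rw [this, dist_eq_norm, add_sub_cancel_left, norm_mul, h1', mul_one,
      Complex.norm_real, Real.norm_eq_abs, abs_neg]

theorem LS.mono {u c c' : ℝ} (h : LS G u c) (hc : c' ≤ c) : LS G u c' := fun t ht => h t (ht.trans hc)

theorem Str.mono {u c c' : ℝ} (h : Str G u c) (hc : c' ≤ c) : Str G u c' := by
  obtain ⟨τ, h1, h2⟩ := h
  exact ⟨τ, h1, fun t ht => h2 t (ht.trans hc)⟩

theorem Str.near {u c t : ℝ} (h : Str G u c) {c' : ℝ} (hc : |t| + c' ≤ c) : Str G (u + t) c' := by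
  obtain ⟨τ, h1, h2⟩ := h
  refine ⟨τ, h1, fun r hr => ?_⟩
  have h3 : |t + r| ≤ c := (abs_add_le t r).trans (by linarith)
  have h4 : |t| ≤ c := by linarith [abs_nonneg r]
  rw [add_assoc, h2 _ h3, h2 t h4]
  push_cast; ring

/-- the edge containing a point -/
theorem exists_edge {u : ℝ} (h0 : 0 ≤ u) (h1 : u < G.L) : ∃ i < G.n, G.s i ≤ u ∧ u < G.s (i + 1) := by
  classical
  have hex : ∃ j, j ≤ G.n ∧ u < G.s j := ⟨G.n, le_rfl, by rw [G.s_last]; exact h1⟩
  set j := Nat.find hex with hj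
  obtain ⟨h2, h3⟩ := Nat.find_spec hex
  have h4 : j ≠ 0 := by
    intro h
    rw [← hj, h, G.s_zero] at h3
    linarith
  obtain ⟨i, hi⟩ := Nat.exists_eq_succ_of_ne_zero h4
  refine ⟨i, by omega, ?_, ?_⟩
  · by_contra hcon
    push Not at hcon
    exact Nat.find_min hex (show i < Nat.find hex by omega) ⟨by omega, hcon⟩
  · rw [← hj, hi] at h3; exact h3

theorem str_of_far {u c : ℝ} (hc : ∀ i < G.n, c ≤ G.cd u (G.s i)) : Str G u c := by
  obtain ⟨k, hk0, hk1⟩ := exists_mem_Ico (G := G) u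
  obtain ⟨i, hi, h1, h2⟩ := exists_edge hk0 hk1
  have h3 : c ≤ u + k * G.L - G.s i := by
    have := (hc i hi).trans (cd_le u (G.s i) (-k))
    rwa [show u - G.s i - ((-k : ℤ) : ℝ) * G.L = u + k * G.L - G.s i by push_cast; ring,
      abs_of_nonneg (by linarith)] at this
  have h4 : c ≤ G.s (i + 1) - (u + k * G.L) := by
    rcases Nat.lt_or_ge (i + 1) G.n with h | h
    · have := (hc (i + 1) h).trans (cd_le u (G.s (i + 1)) (-k))
      rwa [show u - G.s (i + 1) - ((-k : ℤ) : ℝ) * G.L = -(G.s (i + 1) - (u + k * G.L)) by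
        push_cast; ring, abs_neg, abs_of_nonneg (by linarith)] at this
    · have hn : i + 1 = G.n := by omega
      rw [hn, G.s_last]
      have := (hc 0 G.n_pos).trans (cd_le u (G.s 0) (-k + 1))
      rw [G.s_zero] at this
      rwa [show u - 0 - ((-k + 1 : ℤ) : ℝ) * G.L = -(G.L - (u + k * G.L)) by
        push_cast; ring, abs_neg, abs_of_nonneg (by linarith)] at this
  refine ⟨G.e i, G.e_norm i hi, fun t ht => ?_⟩
  obtain ⟨ht1, ht2⟩ := abs_le.mp ht
  rw [← b_int (u + t) k, ← b_int u k, G.b_eq i hi (u + t + k * G.L) ⟨by linarith, by linarith⟩,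
    G.b_eq i hi (u + k * G.L) ⟨h1, h2.le⟩]
  push_cast; ring

theorem cor_of_corner (G : ConvexPolygon) : ∃ c : ℝ, 0 < c ∧ ∀ i < G.n, ∀ k : ℤ, Cor G (G.s i + k * G.L) c := by
  have hne : (Finset.range G.n).Nonempty := ⟨0, Finset.mem_range.mpr G.n_pos⟩
  obtain ⟨j, hj, hmin⟩ := (Finset.range G.n).exists_min_image (fun i => G.s (i + 1) - G.s i) hne
  refine ⟨G.s (j + 1) - G.s j, by linarith [G.s_lt j (Finset.mem_range.mp hj)], ?_⟩
  set c := G.s (j + 1) - G.s j
  have hmin' : ∀ i < G.n, c ≤ G.s (i + 1) - G.s i := fun i hi => hmin i (Finset.mem_range.mpr hi)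
  have key : ∀ i < G.n, Cor G (G.s i) c := by
    intro i hi
    have hfw : ∀ t : ℝ, 0 ≤ t → t ≤ c → G.b (G.s i + t) = G.b (G.s i) + (t : ℂ) * G.e i := by
      intro t h0 h1
      rw [G.b_eq i hi (G.s i + t) ⟨by linarith, by linarith [hmin' i hi]⟩]
      push_cast; ring
    rcases Nat.eq_zero_or_pos i with hi0 | hi0
    · subst hi0
      have hn := G.n_pos
      have hl : G.n - 1 < G.n := by omega
      have hl' : G.n - 1 + 1 = G.n := by omega
      refine ⟨G.e 0, -G.e (G.n - 1), G.e_norm 0 hi, by rw [norm_neg]; exact G.e_norm _ hl, ?_, hfw, ?_⟩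
      · intro h
        apply G.turn_last
        linear_combination -h
      · intro t h0 h1
        have hm := hmin' (G.n - 1) hl
        rw [hl', G.s_last] at hm
        have e1 : G.b (G.s 0 - t) = G.b (G.L - t) := by
          rw [G.s_zero, ← G.periodic (0 - t)]; congr 1; ring
        have e2 : G.b (G.s 0) = G.b G.L := by
          rw [G.s_zero, ← G.periodic 0]; congr 1; ring
        rw [e1, e2, G.b_eq _ hl (G.L - t) ⟨by linarith, by rw [hl', G.s_last]; linarith⟩,
          G.b_eq _ hl G.L ⟨by linarith, by rw [hl', G.s_last]⟩]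
        push_cast; ring
    · have hl : i - 1 < G.n := by omega
      have hl' : i - 1 + 1 = i := by omega
      refine ⟨G.e i, -G.e (i - 1), G.e_norm i hi, by rw [norm_neg]; exact G.e_norm _ hl, ?_, hfw, ?_⟩
      · intro h
        apply G.turn (i - 1) (by omega)
        rw [hl']
        linear_combination -h
      · intro t h0 h1
        have hm := hmin' (i - 1) hl
        rw [hl'] at hm
        rw [G.b_eq _ hl (G.s i - t) ⟨by linarith, by rw [hl']; linarith⟩,
          G.b_eq _ hl (G.s i) ⟨by linarith, by rw [hl']⟩]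
        push_cast; ring
  intro i hi k
  obtain ⟨τ, τ', h1, h2, h3, h4, h5⟩ := key i hi
  refine ⟨τ, τ', h1, h2, h3, fun t h0 ht => ?_, fun t h0 ht => ?_⟩
  · rw [show G.s i + k * G.L + t = G.s i + t + k * G.L by ring, b_int, b_int]
    exact h4 t h0 ht
  · rw [show G.s i + k * G.L - t = G.s i - t + k * G.L by ring, b_int, b_int]
    exact h5 t h0 ht

/-- every boundary point is straight or a corner -/
theorem str_or_corner (u : ℝ) : (∃ c > 0, Str G u c) ∨ ∃ i < G.n, ∃ k : ℤ, u = G.s i + k * G.L := by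
  by_cases h : ∃ i < G.n, G.cd u (G.s i) = 0
  · right
    obtain ⟨i, hi, h⟩ := h
    obtain ⟨k, hk⟩ := cd_eq (G := G) u (G.s i)
    rw [h] at hk
    exact ⟨i, hi, k, by linarith [abs_eq_zero.mp hk.symm]⟩
  · left
    push Not at h
    have hne : (Finset.range G.n).Nonempty := ⟨0, Finset.mem_range.mpr G.n_pos⟩
    obtain ⟨j, hj, hmin⟩ := (Finset.range G.n).exists_min_image (fun i => G.cd u (G.s i)) hne
    exact ⟨G.cd u (G.s j), lt_of_le_of_ne (cd_nonneg _ _) (h j (Finset.mem_range.mp hj)).symm,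
      str_of_far fun i hi => hmin i (Finset.mem_range.mpr hi)⟩

theorem exists_ls (u : ℝ) : ∃ c > 0, LS G u c := by
  rcases str_or_corner (G := G) u with ⟨c, hc, h⟩ | ⟨i, hi, k, rfl⟩
  · exact ⟨c, hc, h.ls⟩
  · obtain ⟨c, hc, h⟩ := cor_of_corner G
    exact ⟨c, hc, (h i hi k).ls⟩

theorem b_continuous (G : ConvexPolygon) : Continuous G.b := by
  rw [continuous_iff_continuousAt]
  intro u
  obtain ⟨c, hc, h⟩ := exists_ls (G := G) u
  rw [Metric.continuousAt_iff]
  intro ε hε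
  refine ⟨min c ε, lt_min hc hε, fun {y} hy => ?_⟩
  rw [Real.dist_eq] at hy
  have := h (y - u) (hy.le.trans (min_le_left _ _))
  rw [add_sub_cancel] at this
  rw [this]
  exact hy.trans_le (min_le_right _ _)

theorem exists_sep (G : ConvexPolygon) {c : ℝ} (hc : 0 < c) :
    ∃ ρ > 0, ∀ u w, c ≤ G.cd u w → ρ ≤ dist (G.b u) (G.b w) := by
  set K : Set (ℝ × ℝ) := (Icc 0 G.L ×ˢ Icc 0 G.L) ∩ {z | c ≤ |z.1 - z.2| ∧ |z.1 - z.2| ≤ G.L - c}
  have hK : IsCompact K := by
    apply IsCompact.inter_right (isCompact_Icc.prod isCompact_Icc)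
    have hc1 : Continuous fun z : ℝ × ℝ => |z.1 - z.2| := by fun_prop
    exact (isClosed_le continuous_const hc1).inter (isClosed_le hc1 continuous_const)
  have hcont : Continuous fun z : ℝ × ℝ => dist (G.b z.1) (G.b z.2) :=
    (G.b_continuous.comp continuous_fst).dist (G.b_continuous.comp continuous_snd)
  have hred : ∀ u w, c ≤ G.cd u w → ∃ z ∈ K, dist (G.b u) (G.b w) = dist (G.b z.1) (G.b z.2) := by
    intro u w h
    obtain ⟨k, hk⟩ := exists_mem_Ico (G := G) u
    obtain ⟨m, hm⟩ := exists_mem_Ico (G := G) w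
    refine ⟨(u + k * G.L, w + m * G.L), ⟨⟨⟨hk.1, hk.2.le⟩, ⟨hm.1, hm.2.le⟩⟩, ?_, ?_⟩, ?_⟩
    · have := h.trans (cd_le u w (m - k))
      simp only
      rwa [show u - w - ((m - k : ℤ) : ℝ) * G.L = u + k * G.L - (w + m * G.L) by push_cast; ring] at this
    · simp only
      rcases le_total 0 (u + k * G.L - (w + m * G.L)) with h0 | h0
      · have := h.trans (cd_le u w (m - k + 1))
        rw [show u - w - ((m - k + 1 : ℤ) : ℝ) * G.L = -(G.L - (u + k * G.L - (w + m * G.L))) by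
          push_cast; ring, abs_neg, abs_of_nonneg (by linarith [hk.2, hm.1])] at this
        rw [abs_of_nonneg h0]; linarith
      · have := h.trans (cd_le u w (m - k - 1))
        rw [show u - w - ((m - k - 1 : ℤ) : ℝ) * G.L = G.L + (u + k * G.L - (w + m * G.L)) by
          push_cast; ring, abs_of_nonneg (by linarith [hk.1, hm.2])] at this
        rw [abs_of_nonpos h0]; linarith
    · simp only [b_int]
  rcases K.eq_empty_or_nonempty with hE | hE
  · refine ⟨1, one_pos, fun u w h => ?_⟩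
    obtain ⟨z, hz, -⟩ := hred u w h
    rw [hE] at hz
    exact hz.elim
  · obtain ⟨z, hz, hmin⟩ := hK.exists_isMinOn hE hcont.continuousOn
    refine ⟨dist (G.b z.1) (G.b z.2), ?_, fun u w h => ?_⟩
    · rw [gt_iff_lt, dist_pos]
      intro heq
      have h0 := cd_of_b_eq heq
      obtain ⟨⟨⟨h1, h2⟩, ⟨h3, h4⟩⟩, h5, h6⟩ := hz
      obtain ⟨k, hk⟩ := cd_eq (G := G) z.1 z.2
      rw [h0] at hk
      have hk' := abs_eq_zero.mp hk.symm
      have hL := G.L_pos
      have h7 : |(k : ℝ)| * G.L = |z.1 - z.2| := by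
        rw [show z.1 - z.2 = k * G.L by linarith, abs_mul, abs_of_pos hL]
      rcases eq_or_ne k 0 with hk0 | hk0
      · rw [hk0] at h7; simp at h7; rw [← h7] at h5; linarith
      · have : (1 : ℝ) ≤ |(k : ℝ)| := by exact_mod_cast Int.one_le_abs hk0
        nlinarith
    · obtain ⟨z', hz', h'⟩ := hred u w h
      rw [h']
      exact hmin hz'

/-- the two distances agree at small scale -/
theorem min_dist_eq {c ρ u : ℝ} (hls : LS G u c) (hρ : ∀ u w, c ≤ G.cd u w → ρ ≤ dist (G.b u) (G.b w))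
    (hρc : ρ ≤ c) (w : ℝ) : min ρ (dist (G.b w) (G.b u)) = min ρ (G.cd w u) := by
  rcases le_or_gt c (G.cd w u) with h | h
  · rw [min_eq_left (hρ w u h), min_eq_left (hρc.trans h)]
  · obtain ⟨k, hk⟩ := cd_eq (G := G) w u
    have h1 := hls (w - u - k * G.L) (by rw [← hk]; exact h.le)
    rw [← hk, show u + (w - u - k * G.L) = w + ((-k : ℤ) : ℝ) * G.L by push_cast; ring, b_int] at h1
    rw [h1]

end ConvexPolygon

end Q105.PH
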