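import Pool.Agent.Q105.PH.Geo

set_option autoImplicit false

/-! # Regular and singular points of the glued surface -/

namespace Q105.PH

open Set

namespace ConvexPolygon

variable {G : ConvexPolygon}

/-- `ρ` is an injectivity radius at the scale `c` -/
def Sep (G : ConvexPolygon) (c ρ : ℝ) : Prop := ∀ u w, c ≤ G.cd u w → ρ ≤ dist (G.b u) (G.b w)

theorem min_lip {ρ : ℝ} {f : ℂ → ℝ} (hf : ∀ p q, f p ≤ f q + dist p q) (p q : ℂ) :
    min ρ (f p) ≤ min ρ (f q) + dist p q := by
  rcases le_total ρ (f q) with h | h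
  · rw [min_eq_left h]
    have := min_le_left ρ (f p)
    linarith [dist_nonneg (x := p) (y := q)]
  · rw [min_eq_right h]
    exact (min_le_right _ _).trans (hf p q)

theorem dist_lip (a p q : ℂ) : dist p a ≤ dist q a + dist p q := by
  have := dist_triangle p q a
  linarith

theorem lb_pair {x u c ρ : ℝ} (h1 : LS G u c) (h2 : LS G (2 * x - u) c) (hs : Sep G c ρ) (hρ : ρ ≤ c)
    (h0 : 0 ≤ ρ) {z : ℂ} (hz : z ∈ G.carrier) :
    min ρ (min (dist z (G.b u)) (dist z (G.b (2 * x - u)))) ≤ G.gdist x (G.b u) z := by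
  set f : ℂ → ℝ := fun z => min ρ (min (dist z (G.b u)) (dist z (G.b (2 * x - u)))) with hf
  have hlip : ∀ p q, f p ≤ f q + dist p q := by
    intro p q
    simp only [hf]
    refine min_lip (f := fun z => min (dist z (G.b u)) (dist z (G.b (2 * x - u)))) ?_ p q
    intro p q
    rcases le_total (dist q (G.b u)) (dist q (G.b (2 * x - u))) with h | h
    · rw [min_eq_left h]
      exact (min_le_left _ _).trans (dist_lip _ p q)
    · rw [min_eq_right h]
      exact (min_le_right _ _).trans (dist_lip _ p q)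
  have hval : ∀ w, f (G.b w) = min (min ρ (G.cd w u)) (min ρ (G.cd w (2 * x - u))) := by
    intro w
    simp only [hf]
    rw [← min_dist_eq h1 hs hρ, ← min_dist_eq h2 hs hρ]
    exact inf_inf_distrib_left _ _ _
  have hcomp : ∀ w, f (G.b w) = f (G.b (2 * x - w)) := by
    intro w
    rw [hval, hval, min_comm]
    congr 2
    · exact cd_congr 0 (Or.inr (by push_cast; ring))
    · exact cd_congr 0 (Or.inr (by push_cast; ring))
  have h3 := lower_bound (x := x) f (fun p _ q _ => hlip p q) hcomp hz (G.b_mem u)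
  have h4 : f (G.b u) = 0 := by
    simp only [hf, dist_self]
    rw [min_eq_left (dist_nonneg), min_eq_right h0]
  rw [h4, zero_add, gdist_comm] at h3
  exact h3

theorem lb_int {x ρ : ℝ} {p : ℂ} (hp : p ∈ G.carrier) (hρ : ∀ w, ρ ≤ dist p (G.b w)) (h0 : 0 ≤ ρ)
    {z : ℂ} (hz : z ∈ G.carrier) : min ρ (dist p z) ≤ G.gdist x p z := by
  set f : ℂ → ℝ := fun z => min ρ (dist z p) with hf
  have hlip : ∀ p q, f p ≤ f q + dist p q := fun a b => min_lip (f := fun z => dist z p) (dist_lip p) a b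
  have hval : ∀ w, f (G.b w) = ρ := by
    intro w
    simp only [hf]
    rw [dist_comm, min_eq_left (hρ w)]
  have h3 := lower_bound (x := x) f (fun p _ q _ => hlip p q) (fun w => by rw [hval, hval]) hz hp
  have h4 : f p = 0 := by
    simp only [hf, dist_self]
    exact min_eq_right h0
  rw [h4, zero_add, gdist_comm] at h3
  rw [dist_comm]
  exact h3

def Reg (G : ConvexPolygon) (x : ℝ) (p : ℂ) : Prop :=
  ∃ σ > 0, ∀ s, 0 < s → s < σ → ∃ a ∈ G.carrier, ∃ c ∈ G.carrier,
    G.gdist x a p = s ∧ G.gdist x c p = s ∧ G.gdist x a c = 2 * s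

theorem mem_interior {p : ℂ} (hp : p ∈ G.carrier) (hb : p ∉ range G.b) : p ∈ interior G.carrier := by
  rw [G.range_b, G.closed.frontier_eq] at hb
  by_contra h
  exact hb ⟨hp, h⟩

theorem exists_rad {p : ℂ} (hb : p ∉ range G.b) : ∃ ρ > 0, ∀ w, ρ ≤ dist p (G.b w) := by
  have hcl : IsClosed (range G.b) := by rw [G.range_b]; exact isClosed_frontier
  have h := Metric.isOpen_iff.mp hcl.isOpen_compl p hb
  obtain ⟨ρ, hρ, h⟩ := h
  refine ⟨ρ, hρ, fun w => ?_⟩
  by_contra hcon
  push Not at hcon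
  have : G.b w ∈ Metric.ball p ρ := by rw [Metric.mem_ball, dist_comm]; exact hcon
  exact h this ⟨w, rfl⟩

theorem reg_int {x : ℝ} {p : ℂ} (hp : p ∈ G.carrier) (hb : p ∉ range G.b) : Reg G x p := by
  obtain ⟨ρ, hρ, h1⟩ := exists_rad hb
  obtain ⟨r, hr, h2⟩ := Metric.isOpen_iff.mp isOpen_interior p (mem_interior hp hb)
  refine ⟨min (ρ / 4) r, by positivity, fun s hs0 hs => ?_⟩
  have hs1 : s < ρ / 4 := hs.trans_le (min_le_left _ _)
  have hs2 : s < r := hs.trans_le (min_le_right _ _)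
  have hda : dist (p + (s : ℂ)) p = s := by
    rw [dist_eq_norm, add_sub_cancel_left, Complex.norm_real, Real.norm_eq_abs, abs_of_pos hs0]
  have hdc : dist (p - (s : ℂ)) p = s := by
    rw [dist_eq_norm, sub_sub_cancel_left, norm_neg, Complex.norm_real, Real.norm_eq_abs, abs_of_pos hs0]
  have ha : p + (s : ℂ) ∈ G.carrier := interior_subset (h2 (by rw [Metric.mem_ball, hda]; exact hs2))
  have hc : p - (s : ℂ) ∈ G.carrier := interior_subset (h2 (by rw [Metric.mem_ball, hdc]; exact hs2))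
  refine ⟨_, ha, _, hc, ?_, ?_, ?_⟩
  · apply le_antisymm
    · exact (gdist_le_dist ha hp).trans hda.le
    · have := lb_int (x := x) hp h1 hρ.le ha
      rw [dist_comm, hda, gdist_comm, min_eq_right (by linarith)] at this
      exact this
  · apply le_antisymm
    · exact (gdist_le_dist hc hp).trans hdc.le
    · have := lb_int (x := x) hp h1 hρ.le hc
      rw [dist_comm, hdc, gdist_comm, min_eq_right (by linarith)] at this
      exact this
  · have hdac : dist (p + (s : ℂ)) (p - (s : ℂ)) = 2 * s := by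
      rw [dist_eq_norm, show p + (s : ℂ) - (p - (s : ℂ)) = ((2 * s : ℝ) : ℂ) by push_cast; ring,
        Complex.norm_real, Real.norm_eq_abs, abs_of_pos (by linarith)]
    apply le_antisymm
    · exact (gdist_le_dist ha hc).trans hdac.le
    · have h3 : ∀ w, ρ - s ≤ dist (p + (s : ℂ)) (G.b w) := by
        intro w
        have := h1 w
        have h4 := dist_triangle p (p + (s : ℂ)) (G.b w)
        rw [dist_comm p (p + (s : ℂ)), hda] at h4
        linarith
      have := lb_int (x := x) ha h3 (by linarith) hc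
      rwa [hdac, min_eq_right (by linarith)] at this

theorem reg_str {x u c : ℝ} (hc : 0 < c) (h1 : Str G u c) (h2 : Str G (2 * x - u) c)
    (hne : G.b u ≠ G.b (2 * x - u)) : Reg G x (G.b u) := by
  have hc2 : 0 < c / 2 := by linarith
  obtain ⟨ρ', hρ', hsep'⟩ := exists_sep G hc2
  set ρ := min ρ' (c / 2) with hρdef
  have hρ : 0 < ρ := lt_min hρ' hc2
  have hsep : Sep G (c / 2) ρ := fun u w h => (min_le_left _ _).trans (hsep' u w h)
  have hρc : ρ ≤ c / 2 := min_le_right _ _
  set δ := dist (G.b u) (G.b (2 * x - u)) with hδ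
  have hδ0 : 0 < δ := dist_pos.mpr hne
  refine ⟨min (ρ / 2) (δ / 4), by positivity, fun s hs0 hs => ?_⟩
  have hs1 : s < ρ / 2 := hs.trans_le (min_le_left _ _)
  have hs2 : s < δ / 4 := hs.trans_le (min_le_right _ _)
  have hls := h1.ls
  have d1 : dist (G.b (u + s)) (G.b u) = s := by
    rw [hls s (by rw [abs_of_pos hs0]; linarith), abs_of_pos hs0]
  have d2 : dist (G.b (u + -s)) (G.b u) = s := by
    rw [hls (-s) (by rw [abs_neg, abs_of_pos hs0]; linarith), abs_neg, abs_of_pos hs0]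
  have lsu : LS G u (c / 2) := hls.mono (by linarith)
  have lsu' : LS G (2 * x - u) (c / 2) := h2.ls.mono (by linarith)
  have low : ∀ t, dist (G.b t) (G.b u) = s → s ≤ G.gdist x (G.b t) (G.b u) := by
    intro t ht
    have h3 := lb_pair lsu lsu' hsep hρc hρ.le (G.b_mem t)
    rw [ht, gdist_comm] at h3
    refine le_trans ?_ h3
    refine le_min (by linarith) (le_min le_rfl ?_)
    have := dist_triangle (G.b u) (G.b t) (G.b (2 * x - u))
    rw [dist_comm (G.b u) (G.b t), ht] at this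
    linarith
  refine ⟨_, G.b_mem (u + s), _, G.b_mem (u + -s), ?_, ?_, ?_⟩
  · exact le_antisymm ((gdist_le_dist (G.b_mem _) (G.b_mem _)).trans d1.le) (low _ d1)
  · exact le_antisymm ((gdist_le_dist (G.b_mem _) (G.b_mem _)).trans d2.le) (low _ d2)
  · have lsa : LS G (u + s) (c / 2) := (h1.near (by rw [abs_of_pos hs0]; linarith)).ls
    have lsa' : LS G (2 * x - (u + s)) (c / 2) := by
      have := (h2.near (t := -s) (c' := c / 2) (by rw [abs_neg, abs_of_pos hs0]; linarith)).ls
      rwa [show 2 * x - u + -s = 2 * x - (u + s) by ring] at this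
    have d3 : dist (G.b (u + -s)) (G.b (u + s)) = 2 * s := by
      have := h1.near (t := s) (c' := c / 2) (by rw [abs_of_pos hs0]; linarith)
      have h4 := this.ls (-(2 * s)) (by rw [abs_neg, abs_of_pos (by linarith)]; linarith)
      rw [abs_neg, abs_of_pos (by linarith : (0 : ℝ) < 2 * s)] at h4
      rw [← h4]; congr 2; ring
    have d4 : dist (G.b (2 * x - (u + s))) (G.b (2 * x - u)) = s := by
      have := h2.ls (-s) (by rw [abs_neg, abs_of_pos hs0]; linarith)
      rw [abs_neg, abs_of_pos hs0] at this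
      rwa [show 2 * x - u + -s = 2 * x - (u + s) by ring] at this
    apply le_antisymm
    · refine (gdist_le_dist (G.b_mem _) (G.b_mem _)).trans ?_
      rw [dist_comm, d3]
    · have h3 := lb_pair lsa lsa' hsep hρc hρ.le (G.b_mem (u + -s))
      refine le_trans ?_ h3
      refine le_min (by linarith) (le_min d3.ge ?_)
      have e1 := dist_triangle (G.b u) (G.b (u + -s)) (G.b (2 * x - u))
      have e2 := dist_triangle (G.b (u + -s)) (G.b (2 * x - (u + s))) (G.b (2 * x - u))
      rw [dist_comm (G.b u) (G.b (u + -s)), d2] at e1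
      rw [d4] at e2
      linarith

/-- short cuts across a ray -/
theorem shortcut {A C σ₁ σ₂ : ℂ} {s c : ℝ} (hc : 0 < c) (hs : 0 < s) (hA : ‖A‖ = s) (hC : ‖C‖ = s)
    (h1 : ‖σ₁‖ = 1) (h2 : ‖σ₂‖ = 1) (h : 0 < ip A σ₁ + ip C σ₂) :
    ∃ r : ℝ, 0 < r ∧ r ≤ c ∧ ‖A - (r : ℂ) * σ₁‖ + ‖C - (r : ℂ) * σ₂‖ < 2 * s := by
  set κ := ip A σ₁ + ip C σ₂ with hκ
  set r := min c (κ / 2) with hr
  have hr0 : 0 < r := lt_min hc (half_pos h)
  have hrκ : r ≤ κ / 2 := min_le_right _ _
  refine ⟨r, hr0, min_le_left _ _, ?_⟩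
  have aux : ∀ {B σ : ℂ}, ‖B‖ = s → ‖σ‖ = 1 →
      ‖B - (r : ℂ) * σ‖ ≤ (2 * s ^ 2 - 2 * r * ip B σ + r ^ 2) / (2 * s) := by
    intro B σ hB hσ
    have e1 : ‖B - (r : ℂ) * σ‖ ^ 2 = s ^ 2 - 2 * r * ip B σ + r ^ 2 := by
      rw [← ip_self]
      have e2 := ip_self B
      have e3 := ip_self σ
      rw [hB] at e2
      rw [hσ] at e3
      unfold ip at *
      simp only [Complex.sub_re, Complex.sub_im, Complex.re_ofReal_mul, Complex.im_ofReal_mul]
      linear_combination e2 + r ^ 2 * e3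
    rw [le_div_iff₀ (by linarith)]
    nlinarith [sq_nonneg (‖B - (r : ℂ) * σ‖ - s)]
  have e1 := aux hA h1
  have e2 := aux hC h2
  refine lt_of_le_of_lt (add_le_add e1 e2) ?_
  rw [← add_div, div_lt_iff₀ (by linarith)]
  nlinarith

/-- opposite points -/
theorem opposite {A C : ℂ} {s : ℝ} (hA : ‖A‖ = s) (hC : ‖C‖ = s) (h : 2 * s ≤ ‖A - C‖) : C = -A := by
  have e1 := ip_self A
  have e2 := ip_self C
  have e3 := ip_self (A - C)
  have e4 := ip_self (A + C)
  rw [hA] at e1
  rw [hC] at e2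
  have hs : 0 ≤ s := hA ▸ norm_nonneg A
  have e5 : ip (A + C) (A + C) = 2 * ip A A + 2 * ip C C - ip (A - C) (A - C) := by
    unfold ip
    simp only [Complex.add_re, Complex.add_im, Complex.sub_re, Complex.sub_im]; ring
  rw [e1, e2, e3, e4] at e5
  have e6 : ‖A + C‖ ^ 2 ≤ 0 := by nlinarith [norm_nonneg (A - C)]
  have e7 : A + C = 0 := norm_eq_zero.mp (pow_eq_zero_iff two_ne_zero |>.mp (le_antisymm e6 (sq_nonneg _)))
  linear_combination e7

/-- local data of a boundary point used for the short cuts -/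
def Side (G : ConvexPolygon) (u c : ℝ) (ω ω' : ℂ) : Prop :=
  ‖ω‖ = 1 ∧ ‖ω'‖ = 1 ∧
    (∀ t : ℝ, 0 ≤ t → t ≤ c → G.b (u + t) = G.b u + (t : ℂ) * ω) ∧
    (∀ t : ℝ, 0 ≤ t → t ≤ c → G.b (u - t) = G.b u + (t : ℂ) * ω') ∧
    ∀ w ∈ G.carrier, 0 ≤ ip (w - G.b u) (ω + ω')

theorem Str.side {u c : ℝ} (h : Str G u c) : ∃ ω, Side G u c ω (-ω) := by
  obtain ⟨τ, h1, h2⟩ := h
  refine ⟨τ, h1, by rw [norm_neg]; exact h1, fun t h0 ht => h2 t (by rwa [abs_of_nonneg h0]),
    fun t h0 ht => ?_, fun w _ => ?_⟩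
  · rw [sub_eq_add_neg, h2 (-t) (by rwa [abs_neg, abs_of_nonneg h0])]
    push_cast; ring
  · rw [add_neg_cancel]; unfold ip; simp

theorem near_of {x u c ρ s : ℝ} (h1 : LS G u c) (h2 : LS G (2 * x - u) c) (hs : Sep G c ρ) (hρ : ρ ≤ c)
    (h0 : 0 ≤ ρ) (hsρ : s < ρ) {a : ℂ} (ha : a ∈ G.carrier) (h : G.gdist x a (G.b u) = s) :
    ‖a - G.b u‖ = s ∨ ‖a - G.b (2 * x - u)‖ = s := by
  have e1 := lb_pair h1 h2 hs hρ h0 ha
  rw [gdist_comm, h] at e1
  have e2 : s ≤ dist a (G.b u) := by rw [← h]; exact gdist_le_dist ha (G.b_mem _)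
  have e3 : s ≤ dist a (G.b (2 * x - u)) := by
    have f1 := gdist_triangle (x := x) ha (G.b_mem (2 * x - u)) (G.b_mem u)
    have f2 := gdist_b G x u
    rw [gdist_comm] at f2
    rw [f2, add_zero, h] at f1
    exact f1.trans (gdist_le_dist ha (G.b_mem _))
  rcases min_le_iff.mp e1 with h3 | h3
  · exact absurd h3 (not_le.mpr hsρ)
  · rcases min_le_iff.mp h3 with h4 | h4
    · left; rw [← dist_eq_norm]; exact le_antisymm h4 e2
    · right; rw [← dist_eq_norm]; exact le_antisymm h4 e3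

theorem cross_lt {x u c s : ℝ} (hc : 0 < c) (hs : 0 < s) {τ τ' ω ω' : ℂ}
    (hu : Side G u c τ τ') (hu' : Side G (2 * x - u) c ω ω') {a d : ℂ} (ha : a ∈ G.carrier)
    (hd : d ∈ G.carrier) (na : ‖a - G.b (2 * x - u)‖ = s) (nd : ‖d - G.b u‖ = s)
    (hpos : 0 < ip (d - G.b u) (τ + τ')) : G.gdist x a d < 2 * s := by
  obtain ⟨n1, n2, f1, f2, -⟩ := hu
  obtain ⟨m1, m2, g1, g2, g3⟩ := hu'
  have h0 := g3 a ha
  rw [ip_add_right] at h0 hpos
  have key : ∀ (σ₁ σ₂ : ℂ), ‖σ₁‖ = 1 → ‖σ₂‖ = 1 →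
      (∀ r : ℝ, 0 < r → r ≤ c → ∃ t, G.b t = G.b (2 * x - u) + (r : ℂ) * σ₁ ∧
        G.b (2 * x - t) = G.b u + (r : ℂ) * σ₂) →
      0 < ip (a - G.b (2 * x - u)) σ₁ + ip (d - G.b u) σ₂ → G.gdist x a d < 2 * s := by
    intro σ₁ σ₂ k1 k2 k3 k4
    obtain ⟨r, hr0, hrc, hr⟩ := shortcut hc hs na nd k1 k2 k4
    obtain ⟨t, t1, t2⟩ := k3 r hr0 hrc
    have j1 := gdist_triangle (x := x) ha (G.b_mem t) hd
    have j2 := gdist_triangle (x := x) (G.b_mem t) (G.b_mem (2 * x - t)) hd
    rw [gdist_b] at j2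
    have j3 := gdist_le_dist (x := x) ha (G.b_mem t)
    have j4 := gdist_le_dist (x := x) (G.b_mem (2 * x - t)) hd
    have i3 : dist a (G.b t) = ‖a - G.b (2 * x - u) - (r : ℂ) * σ₁‖ := by
      rw [dist_eq_norm, t1, sub_add_eq_sub_sub]
    have i4 : dist (G.b (2 * x - t)) d = ‖d - G.b u - (r : ℂ) * σ₂‖ := by
      rw [dist_comm, dist_eq_norm, t2, sub_add_eq_sub_sub]
    rw [i3] at j3
    rw [i4] at j4
    linarith
  rcases lt_or_ge 0 (ip (a - G.b (2 * x - u)) ω' + ip (d - G.b u) τ) with h | h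
  · refine key ω' τ m2 n1 (fun r h1 h2 => ⟨2 * x - u - r, g2 r h1.le h2, ?_⟩) h
    rw [show 2 * x - (2 * x - u - r) = u + r by ring]
    exact f1 r h1.le h2
  · refine key ω τ' m1 n2 (fun r h1 h2 => ⟨2 * x - u + r, g1 r h1.le h2, ?_⟩) (by linarith)
    rw [show 2 * x - (2 * x - u + r) = u - r by ring]
    exact f2 r h1.le h2

theorem not_reg_corner {x u c : ℝ} (hc : 0 < c) (hcL : 2 * c < G.L) (h1 : Cor G u c)
    (h2 : Str G (2 * x - u) c ∨ Cor G (2 * x - u) c) : ¬ Reg G x (G.b u) := by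
  rintro ⟨σ, hσ, hreg⟩
  have ls1 := h1.ls
  have ls2 : LS G (2 * x - u) c := h2.elim Str.ls Cor.ls
  obtain ⟨τ, τ', n1, n2, hne, f1, f2⟩ := h1
  have hposu : ∀ w ∈ G.carrier, w ≠ G.b u → 0 < ip (w - G.b u) (τ + τ') := fun w hw hwu =>
    corner_pos hc hcL n1 n2 hne f1 f2 hw hwu
  have hsideu : Side G u c τ τ' := ⟨n1, n2, f1, f2, fun w hw => by
    rcases eq_or_ne w (G.b u) with h | h
    · rw [h, sub_self]; unfold ip; simp
    · exact (hposu w hw h).le⟩
  obtain ⟨ρ', hρ', hsep'⟩ := exists_sep G hc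
  set ρ := min ρ' c with hρdef
  have hρ : 0 < ρ := lt_min hρ' hc
  have hsep : Sep G c ρ := fun u w h => (min_le_left _ _).trans (hsep' u w h)
  have hρc : ρ ≤ c := min_le_right _ _
  obtain ⟨s, hs0, hs⟩ := exists_between (lt_min hσ hρ)
  have hs1 : s < σ := hs.trans_le (min_le_left _ _)
  have hs2 : s < ρ := hs.trans_le (min_le_right _ _)
  obtain ⟨a, ha, d, hd, ga, gd, gad⟩ := hreg s hs0 hs1
  -- the side at the partner
  obtain ⟨ω, ω', hside'⟩ : ∃ ω ω', Side G (2 * x - u) c ω ω' := by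
    rcases h2 with h2 | ⟨ω, ω', m1, m2, mne, g1, g2⟩
    · obtain ⟨ω, h⟩ := h2.side; exact ⟨ω, -ω, h⟩
    · refine ⟨ω, ω', m1, m2, g1, g2, fun w hw => ?_⟩
      rcases eq_or_ne w (G.b (2 * x - u)) with h | h
      · rw [h, sub_self]; unfold ip; simp
      · exact (corner_pos hc hcL m1 m2 mne g1 g2 hw h).le
  have hnad : 2 * s ≤ ‖a - d‖ := by rw [← gad, ← dist_eq_norm]; exact gdist_le_dist ha hd
  have hne0 : ∀ {z w : ℂ}, ‖z - w‖ = s → z ≠ w := by
    intro z w h heq
    rw [heq, sub_self, norm_zero] at h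
    linarith
  rcases near_of ls1 ls2 hsep hρc hρ.le hs2 ha ga with na | na <;>
    rcases near_of ls1 ls2 hsep hρc hρ.le hs2 hd gd with nd | nd
  · -- both near the corner
    have hop := opposite na nd (by rwa [sub_sub_sub_cancel_right])
    have p1 := hposu a ha (hne0 na)
    have p2 := hposu d hd (hne0 nd)
    rw [hop] at p2
    unfold ip at p1 p2
    simp only [Complex.neg_re, Complex.neg_im] at p2
    linarith
  · -- `a` near the corner, `d` near the partner
    have := cross_lt hc hs0 hsideu hside' hd ha nd na (hposu a ha (hne0 na))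
    rw [gdist_comm, gad] at this
    exact lt_irrefl _ this
  · have := cross_lt hc hs0 hsideu hside' ha hd na nd (hposu d hd (hne0 nd))
    rw [gad] at this
    exact lt_irrefl _ this
  · -- both near the partner
    have hop := opposite na nd (by rwa [sub_sub_sub_cancel_right])
    rcases h2 with h2 | ⟨ω₂, ω₂', m1, m2, mne, g1, g2⟩
    · obtain ⟨υ, hυ, h3⟩ := h2
      have ea : a = G.b (2 * x - u) + (a - G.b (2 * x - u)) := by ring
      have ed : d = G.b (2 * x - u) - (a - G.b (2 * x - u)) := by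
        rw [sub_eq_add_neg, ← hop]; ring
      obtain ⟨l, hl⟩ := line_of_str hc hυ h3 (v := a - G.b (2 * x - u)) (by rw [← ea]; exact ha)
        (by rw [← ed]; exact hd)
      have hls : |l| = s := by
        rw [hl, norm_mul, hυ, mul_one, Complex.norm_real, Real.norm_eq_abs] at na
        exact na
      have e1 : a = G.b (2 * x - u + l) := by rw [h3 l (by linarith), ← hl]; ring
      have e2 : d = G.b (2 * x - u + -l) := by
        rw [h3 (-l) (by rw [abs_neg]; linarith), ed, hl]; push_cast; ring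
      have g1 := gdist_b G x (2 * x - u + l)
      have g2 := gdist_b G x (2 * x - u + -l)
      rw [show 2 * x - (2 * x - u + l) = u - l by ring] at g1
      rw [show 2 * x - (2 * x - u + -l) = u + l by ring] at g2
      have t1 := gdist_triangle (x := x) ha (G.b_mem (u - l)) hd
      have t2 := gdist_triangle (x := x) (G.b_mem (u - l)) (G.b_mem (u + l)) hd
      have t3 := gdist_le_dist (x := x) (G.b_mem (u - l)) (G.b_mem (u + l))
      rw [← e1] at g1
      rw [← e2, gdist_comm] at g2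
      have hlt : dist (G.b (u - l)) (G.b (u + l)) < 2 * s := by
        have hcase : dist (G.b (u - l)) (G.b (u + l)) = s * ‖τ' - τ‖ := by
          rcases le_total 0 l with h0 | h0
          · rw [abs_of_nonneg h0] at hls
            rw [hls, f1 s hs0.le (by linarith), f2 s hs0.le (by linarith), dist_eq_norm,
              show G.b u + (s : ℂ) * τ' - (G.b u + (s : ℂ) * τ) = (s : ℂ) * (τ' - τ) by ring,
              norm_mul, Complex.norm_real, Real.norm_eq_abs, abs_of_pos hs0]
          · rw [abs_of_nonpos h0] at hls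
            have hl' : l = -s := by linarith
            rw [hl', sub_neg_eq_add, ← sub_eq_add_neg, f1 s hs0.le (by linarith), f2 s hs0.le (by linarith),
              dist_comm, dist_eq_norm,
              show G.b u + (s : ℂ) * τ' - (G.b u + (s : ℂ) * τ) = (s : ℂ) * (τ' - τ) by ring,
              norm_mul, Complex.norm_real, Real.norm_eq_abs, abs_of_pos hs0]
        have hn2 : ‖τ' - τ‖ < 2 := by
          have k1 := ip_self (τ' - τ)
          have k2 := ip_self (τ + τ')
          have k3 := norm_one_sq n1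
          have k4 := norm_one_sq n2
          have k5 : 0 < ‖τ + τ'‖ ^ 2 := pow_pos (norm_pos_iff.mpr hne) 2
          have k6 : ip (τ' - τ) (τ' - τ) + ip (τ + τ') (τ + τ') = 4 := by
            unfold ip
            simp only [Complex.add_re, Complex.add_im, Complex.sub_re, Complex.sub_im]
            linear_combination 2 * k3 + 2 * k4
          nlinarith [norm_nonneg (τ' - τ)]
        rw [hcase]
        nlinarith
      linarith
    · have p1 := corner_pos hc hcL m1 m2 mne g1 g2 ha (hne0 na)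
      have p2 := corner_pos hc hcL m1 m2 mne g1 g2 hd (hne0 nd)
      rw [hop] at p2
      unfold ip at p1 p2
      simp only [Complex.neg_re, Complex.neg_im] at p2
      linarith

theorem not_reg_fold {x u c : ℝ} (hc : 0 < c) (h1 : Str G u c) {k : ℤ} (hk : 2 * x - u = u + k * G.L) :
    ¬ Reg G x (G.b u) := by
  rintro ⟨σ, hσ, hreg⟩
  have ls1 := h1.ls
  have hb : ∀ t, G.b (2 * x - u + t) = G.b (u + t) := by
    intro t
    rw [hk, show u + k * G.L + t = u + t + k * G.L by ring, b_int]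
  have hb0 : G.b (2 * x - u) = G.b u := by rw [hk, b_int]
  have ls2 : LS G (2 * x - u) c := fun t ht => by rw [hb, hb0]; exact ls1 t ht
  obtain ⟨ρ', hρ', hsep'⟩ := exists_sep G hc
  set ρ := min ρ' c with hρdef
  have hρ : 0 < ρ := lt_min hρ' hc
  have hsep : Sep G c ρ := fun u w h => (min_le_left _ _).trans (hsep' u w h)
  have hρc : ρ ≤ c := min_le_right _ _
  obtain ⟨s, hs0, hs⟩ := exists_between (lt_min hσ hρ)
  have hs1 : s < σ := hs.trans_le (min_le_left _ _)
  have hs2 : s < ρ := hs.trans_le (min_le_right _ _)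
  obtain ⟨a, ha, d, hd, ga, gd, gad⟩ := hreg s hs0 hs1
  have hnad : 2 * s ≤ ‖a - d‖ := by rw [← gad, ← dist_eq_norm]; exact gdist_le_dist ha hd
  have na : ‖a - G.b u‖ = s := by
    rcases near_of ls1 ls2 hsep hρc hρ.le hs2 ha ga with h | h
    · exact h
    · rwa [hb0] at h
  have nd : ‖d - G.b u‖ = s := by
    rcases near_of ls1 ls2 hsep hρc hρ.le hs2 hd gd with h | h
    · exact h
    · rwa [hb0] at h
  have hop := opposite na nd (by rwa [sub_sub_sub_cancel_right])
  obtain ⟨υ, hυ, h3⟩ := h1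
  have ea : a = G.b u + (a - G.b u) := by ring
  have ed : d = G.b u - (a - G.b u) := by
    rw [sub_eq_add_neg, ← hop]; ring
  obtain ⟨l, hl⟩ := line_of_str hc hυ h3 (v := a - G.b u) (by rw [← ea]; exact ha)
    (by rw [← ed]; exact hd)
  have hls : |l| = s := by
    rw [hl, norm_mul, hυ, mul_one, Complex.norm_real, Real.norm_eq_abs] at na
    exact na
  have e1 : a = G.b (u + l) := by rw [h3 l (by linarith), ← hl]; ring
  have e2 : d = G.b (u + -l) := by
    rw [h3 (-l) (by rw [abs_neg]; linarith), ed, hl]; push_cast; ring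
  have g1 := gdist_b G x (u + l)
  rw [show 2 * x - (u + l) = 2 * x - u + -l by ring, hb, ← e1, ← e2, gad] at g1
  linarith

/-- the singular points -/
theorem exists_of_not_reg {x : ℝ} {p : ℂ} (hp : p ∈ G.carrier) (h : ¬ Reg G x p) :
    (∃ i < G.n, G.gdist x p (G.b (G.s i)) = 0) ∨ G.gdist x p (G.b x) = 0 ∨
      G.gdist x p (G.b (x + G.L / 2)) = 0 := by
  by_cases hb : p ∈ range G.b
  · obtain ⟨u, rfl⟩ := hb
    rcases str_or_corner (G := G) u with ⟨c, hc, h1⟩ | ⟨i, hi, k, hk⟩
    · rcases str_or_corner (G := G) (2 * x - u) with ⟨c', hc', h2⟩ | ⟨i, hi, k, hk⟩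
      · by_cases hne : G.b u = G.b (2 * x - u)
        · have h3 := cd_of_b_eq hne
          obtain ⟨k, hk⟩ := cd_eq (G := G) u (2 * x - u)
          rw [h3] at hk
          have hk' := abs_eq_zero.mp hk.symm
          right
          rcases Int.even_or_odd' k with ⟨m, rfl | rfl⟩
          · left
            have : G.b u = G.b x := by
              rw [← b_int x m]; congr 1; push_cast at hk'; linarith
            rw [this]; exact gdist_self G x _
          · right
            have : G.b u = G.b (x + G.L / 2) := by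
              rw [← b_int (x + G.L / 2) m]; congr 1; push_cast at hk'; linarith
            rw [this]; exact gdist_self G x _
        · exact absurd (reg_str (lt_min hc hc') (h1.mono (min_le_left _ _)) (h2.mono (min_le_right _ _))
            hne) h
      · left
        refine ⟨i, hi, ?_⟩
        have := gdist_b G x u
        rwa [hk, b_int] at this
    · left
      refine ⟨i, hi, ?_⟩
      rw [hk, b_int]; exact gdist_self G x _
  · exact absurd (reg_int hp hb) h

end ConvexPolygon

end Q105.PH
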